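import Mathlib

/-!
Finitely generated torsion free modules over a principal ideal domain `B / y`.
-/

namespace Pool.Agent.Q37.QA

lemma exists_free_gens {B N : Type*} [CommRing B] [AddCommGroup N] [Module B N]
    [Module.Finite B N] (y : B) (hdom : IsDomain (B ⧸ Ideal.span {y}))
    (hpir : IsPrincipalIdealRing (B ⧸ Ideal.span {y}))
    (hy : ∀ n : N, y • n = 0) (htf : ∀ (b : B) (n : N), b • n = 0 → y ∣ b ∨ n = 0) :
    ∃ (a : ℕ) (k : Fin a → N), (∀ s, ∃ c : Fin a → B, s = ∑ i, c i • k i) ∧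
      (∀ c : Fin a → B, ∑ i, c i • k i = 0 → ∀ i, y ∣ c i) := by
  have ht : Module.IsTorsionBySet B N (Ideal.span {y} : Ideal B) := by
    rintro n ⟨b, hb⟩
    obtain ⟨c, rfl⟩ := Ideal.mem_span_singleton'.1 hb
    change (c * y) • n = 0
    rw [mul_smul, hy, smul_zero]
  let _ : Module (B ⧸ Ideal.span {y}) N := ht.module
  have hmk : ∀ (b : B) (n : N), (Ideal.Quotient.mk (Ideal.span {y}) b) • n = b • n :=
    fun b n => ht.mk_smul b n
  have : IsScalarTower B (B ⧸ Ideal.span {y}) N := ht.isScalarTower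
  have : Module.Finite (B ⧸ Ideal.span {y}) N := Module.Finite.of_restrictScalars_finite B _ N
  have : Module.IsTorsionFree (B ⧸ Ideal.span {y}) N := by
    apply Module.IsTorsionFree.of_smul_eq_zero
    intro r n h
    obtain ⟨b, rfl⟩ := Ideal.Quotient.mk_surjective r
    rw [hmk] at h
    rcases htf b n h with h | h
    · left
      rw [Ideal.Quotient.eq_zero_iff_mem, Ideal.mem_span_singleton]
      exact h
    · exact Or.inr h
  obtain ⟨a, k⟩ := Module.basisOfFiniteTypeTorsionFree' (R := B ⧸ Ideal.span {y}) (M := N)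
  refine ⟨a, k, fun s => ?_, fun c hc i => ?_⟩
  · choose c hc using fun i => Ideal.Quotient.mk_surjective (k.repr s i)
    exact ⟨c, (k.sum_repr s).symm.trans (Finset.sum_congr rfl (fun i _ => by rw [← hmk, hc]))⟩
  · have h1 : ∑ i, Ideal.Quotient.mk (Ideal.span {y}) (c i) • k i = 0 := by
      rw [← hc]
      exact Finset.sum_congr rfl (fun i _ => hmk _ _)
    have h2 := Fintype.linearIndependent_iff.1 k.linearIndependent _ h1 i
    rwa [Ideal.Quotient.eq_zero_iff_mem, Ideal.mem_span_singleton] at h2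

end Pool.Agent.Q37.QA
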