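import Mathlib

/-!
The ring `R[x, t] / (x t - p)`.
-/

universe u

open Polynomial

namespace Pool.Agent.Q37.QA

noncomputable section

variable (R : Type u) [CommRing R] (p : R)

/-- the ideal generated by `x t - p` in `R[x][t]` -/
def II : Ideal R[X][X] := Ideal.span {C X * X - C (C p)}

/-- the ring `R[x, t] / (x t - p)` -/
def BB : Type u := R[X][X] ⧸ II R p

instance : CommRing (BB R p) := inferInstanceAs (CommRing (R[X][X] ⧸ II R p))

instance [IsNoetherianRing R] : IsNoetherianRing (BB R p) :=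
  inferInstanceAs (IsNoetherianRing (R[X][X] ⧸ II R p))

/-- the quotient map -/
def bmk : R[X][X] →+* BB R p := Ideal.Quotient.mk (II R p)

/-- the structure map -/
def bR : R →+* BB R p := (bmk R p).comp (C.comp C)

/-- the map from `R[x]` -/
def bA : R[X] →+* BB R p := (bmk R p).comp C

/-- the element `x` -/
def bx : BB R p := bmk R p (C X)

/-- the element `t` -/
def bt : BB R p := bmk R p X

variable {R p}

lemma bmk_surjective : Function.Surjective (bmk R p) := Ideal.Quotient.mk_surjective

lemma bmk_eq_zero {a : R[X][X]} : bmk R p a = 0 ↔ a ∈ II R p := Ideal.Quotient.eq_zero_iff_mem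

lemma bx_mul_bt : bx R p * bt R p = bR R p p := by
  have h : bmk R p (C X * X - C (C p)) = 0 :=
    bmk_eq_zero.2 (Ideal.subset_span rfl)
  rw [map_sub, map_mul, sub_eq_zero] at h
  exact h

lemma bLift_mk {S : Type*} [CommRing S] (I : Ideal R[X][X]) (f : R[X][X] →+* S)
    (h : ∀ a ∈ I, f a = 0) (a : R[X][X]) :
    Ideal.Quotient.lift I f h (Ideal.Quotient.mk I a) = f a := Ideal.Quotient.lift_mk _ _ _

lemma bA_X : bA R p X = bx R p := rfl

lemma bA_C (r : R) : bA R p (C r) = bR R p r := rfl

/-- maps out of the ring -/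
def bLift {S : Type*} [CommRing S] (f : R →+* S) (x t : S) (h : x * t = f p) : BB R p →+* S :=
  Ideal.Quotient.lift (II R p) (eval₂RingHom (eval₂RingHom f x) t) (by
    intro a ha
    have h1 : II R p ≤ RingHom.ker (eval₂RingHom (eval₂RingHom f x) t) := by
      rw [II, Ideal.span_le]
      rintro _ rfl
      simp [RingHom.mem_ker, h]
    exact h1 ha)

@[simp]
lemma bLift_bR {S : Type*} [CommRing S] (f : R →+* S) (x t : S) (h : x * t = f p) (r : R) :
    bLift f x t h (bR R p r) = f r := by
  refine (bLift_mk _ _ _ _).trans ?_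
  simp

@[simp]
lemma bLift_bA {S : Type*} [CommRing S] (f : R →+* S) (x t : S) (h : x * t = f p) (a : R[X]) :
    bLift f x t h (bA R p a) = a.eval₂ f x := by
  refine (bLift_mk _ _ _ _).trans ?_
  simp

@[simp]
lemma bLift_bx {S : Type*} [CommRing S] (f : R →+* S) (x t : S) (h : x * t = f p) :
    bLift f x t h (bx R p) = x := by
  refine (bLift_mk _ _ _ _).trans ?_
  simp

@[simp]
lemma bLift_bt {S : Type*} [CommRing S] (f : R →+* S) (x t : S) (h : x * t = f p) :
    bLift f x t h (bt R p) = t := by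
  refine (bLift_mk _ _ _ _).trans ?_
  simp

lemma bb_hom_ext {S : Type*} [CommRing S] {f g : BB R p →+* S}
    (hR : ∀ r, f (bR R p r) = g (bR R p r)) (hx : f (bx R p) = g (bx R p))
    (ht : f (bt R p) = g (bt R p)) : f = g := by
  apply Ideal.Quotient.ringHom_ext
  apply Polynomial.ringHom_ext
  · intro a
    have h : (f.comp (bA R p)) = (g.comp (bA R p)) := by
      apply Polynomial.ringHom_ext
      · exact hR
      · exact hx
    exact congr($h a)
  · exact ht

/-! ### The quotients by `x` and by `t` -/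

/-- the residue ring -/
abbrev kk (R : Type u) [CommRing R] (p : R) : Type u := R ⧸ Ideal.span {p}

lemma kk_p : Ideal.Quotient.mk (Ideal.span {p}) p = 0 :=
  Ideal.Quotient.eq_zero_iff_mem.2 (Ideal.mem_span_singleton_self p)

/-- the map to `k[t]` -/
def rx (R : Type u) [CommRing R] (p : R) : BB R p →+* (kk R p)[X] :=
  bLift (C.comp (Ideal.Quotient.mk (Ideal.span {p}))) 0 X (by simp)

/-- the map to `k[x]` -/
def rt (R : Type u) [CommRing R] (p : R) : BB R p →+* (kk R p)[X] :=
  bLift (C.comp (Ideal.Quotient.mk (Ideal.span {p}))) X 0 (by simp)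

lemma kk_lift {S : Type*} [CommRing S] (f : R →+* S) (h : f p = 0) :
    ∀ a ∈ Ideal.span {p}, f a = 0 := by
  intro a ha
  obtain ⟨c, rfl⟩ := Ideal.mem_span_singleton'.1 ha
  rw [map_mul, h, mul_zero]

/-- `B / x = k[t]` -/
def ex (R : Type u) [CommRing R] (p : R) :
    (BB R p ⧸ Ideal.span {bx R p}) ≃+* (kk R p)[X] :=
  let q := Ideal.Quotient.mk (Ideal.span {bx R p})
  have hq : q (bx R p) = 0 :=
    Ideal.Quotient.eq_zero_iff_mem.2 (Ideal.mem_span_singleton_self _)
  let g : (kk R p)[X] →+* (BB R p ⧸ Ideal.span {bx R p}) :=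
    eval₂RingHom (Ideal.Quotient.lift (Ideal.span {p}) (q.comp (bR R p)) (kk_lift _ (by
      rw [RingHom.comp_apply, ← bx_mul_bt, map_mul, hq, zero_mul]))) (q (bt R p))
  RingEquiv.ofRingHom
    (Ideal.Quotient.lift (Ideal.span {bx R p}) (rx R p) (by
      intro a ha
      obtain ⟨c, rfl⟩ := Ideal.mem_span_singleton'.1 ha
      rw [map_mul]
      simp [rx]))
    g
    (by
      apply Polynomial.ringHom_ext
      · intro a
        obtain ⟨a, rfl⟩ := Ideal.Quotient.mk_surjective a
        simp [g, q, rx]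
      · simp [g, q, rx])
    (by
      apply Ideal.Quotient.ringHom_ext
      apply bb_hom_ext
      · intro r
        simp [g, q, rx]
      · simp only [g, q, rx, RingHom.comp_apply, Ideal.Quotient.lift_mk, bLift_bx, map_zero,
          RingHom.id_apply]
        exact hq.symm
      · simp [g, q, rx])

/-- `B / t = k[x]` -/
def et (R : Type u) [CommRing R] (p : R) :
    (BB R p ⧸ Ideal.span {bt R p}) ≃+* (kk R p)[X] :=
  let q := Ideal.Quotient.mk (Ideal.span {bt R p})
  have hq : q (bt R p) = 0 :=
    Ideal.Quotient.eq_zero_iff_mem.2 (Ideal.mem_span_singleton_self _)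
  let g : (kk R p)[X] →+* (BB R p ⧸ Ideal.span {bt R p}) :=
    eval₂RingHom (Ideal.Quotient.lift (Ideal.span {p}) (q.comp (bR R p)) (kk_lift _ (by
      rw [RingHom.comp_apply, ← bx_mul_bt, map_mul, hq, mul_zero]))) (q (bx R p))
  RingEquiv.ofRingHom
    (Ideal.Quotient.lift (Ideal.span {bt R p}) (rt R p) (by
      intro a ha
      obtain ⟨c, rfl⟩ := Ideal.mem_span_singleton'.1 ha
      rw [map_mul]
      simp [rt]))
    g
    (by
      apply Polynomial.ringHom_ext
      · intro a
        obtain ⟨a, rfl⟩ := Ideal.Quotient.mk_surjective a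
        simp [g, q, rt]
      · simp [g, q, rt])
    (by
      apply Ideal.Quotient.ringHom_ext
      apply bb_hom_ext
      · intro r
        simp [g, q, rt]
      · simp [g, q, rt]
      · simp only [g, q, rt, RingHom.comp_apply, Ideal.Quotient.lift_mk, bLift_bt, map_zero,
          RingHom.id_apply]
        exact hq.symm)

lemma exists_pow_mul (b : BB R p) : ∃ (N : ℕ) (Q : R[X]), bx R p ^ N * b = bA R p Q := by
  obtain ⟨P, rfl⟩ := bmk_surjective b
  induction P using Polynomial.induction_on' with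
  | add P P' h h' =>
    obtain ⟨N, Q, hQ⟩ := h
    obtain ⟨N', Q', hQ'⟩ := h'
    refine ⟨N + N', X ^ N' * Q + X ^ N * Q', ?_⟩
    rw [map_add, map_add, map_mul, map_mul, map_pow, map_pow, bA_X, ← hQ, ← hQ']
    ring
  | monomial n a =>
    refine ⟨n, a * C p ^ n, ?_⟩
    have h1 : bmk R p (monomial n a) = bA R p a * bt R p ^ n := by
      rw [← C_mul_X_pow_eq_monomial, map_mul, map_pow]
      rfl
    rw [h1, map_mul, map_pow, bA_C, ← bx_mul_bt]
    ring

section domain

variable [IsDomain R] (hp : Prime p)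

include hp in
lemma regular_p (b : BB R p) (h : bR R p p * b = 0) : b = 0 := by
  obtain ⟨P, rfl⟩ := bmk_surjective b
  have h1 : bmk R p (C (C p) * P) = 0 := by rw [map_mul]; exact h
  rw [bmk_eq_zero, II, Ideal.mem_span_singleton'] at h1
  obtain ⟨Q, hQ⟩ := h1
  have hpp : Prime (C (C p) : R[X][X]) := prime_C_iff.2 (prime_C_iff.2 hp)
  have h2 : C (C p) ∣ Q * (C X * X) := by
    refine ⟨P + Q, ?_⟩
    linear_combination hQ
  have h3 : C (C p) ∣ Q := by
    rcases hpp.dvd_or_dvd h2 with h3 | h3
    · exact h3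
    · exfalso
      rw [C_dvd_iff_dvd_coeff] at h3
      have h4 := h3 1
      simp only [coeff_C_mul, coeff_X_one, mul_one] at h4
      rw [C_dvd_iff_dvd_coeff] at h4
      have h5 := h4 1
      simp only [coeff_X_one] at h5
      exact hp.not_isUnit (isUnit_of_dvd_one h5)
  obtain ⟨Q', rfl⟩ := h3
  rw [bmk_eq_zero, II, Ideal.mem_span_singleton']
  refine ⟨Q', ?_⟩
  apply mul_left_cancel₀ hpp.ne_zero
  rw [← hQ]
  ring

include hp in
lemma regular_x (b : BB R p) (h : bx R p * b = 0) : b = 0 := by
  apply regular_p hp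
  rw [← bx_mul_bt, mul_assoc, mul_comm (bt R p), ← mul_assoc, h, zero_mul]

end domain

end

end Pool.Agent.Q37.QA
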