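import Pool.Agent.Q37.QA.Alg2

/-!
The ring `R[x, t] / (x t - p)` and the Laurent polynomials over the field `R[1/p]`.
-/

universe u

open Polynomial

namespace Pool.Agent.Q37.QA

noncomputable section

variable {R : Type u} [CommRing R] [IsDomain R] {p : R} (hp : Prime p)
  (K : Type u) [Field K] [Algebra R K] [IsLocalization.Away p K]
  (L : Type u) [CommRing L] [Algebra K[X] L] [IsLocalization.Away (X : K[X]) L]

/-- the inverse of `x` -/
def xinv : L := IsLocalization.Away.invSelf (S := L) (X : K[X])

omit [Algebra R K] [IsLocalization.Away p K] in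
lemma x_mul_xinv : algebraMap K[X] L X * xinv K L = 1 := IsLocalization.Away.mul_invSelf _

/-- the embedding into the Laurent polynomials -/
def beta (p : R) : BB R p →+* L :=
  bLift ((algebraMap K[X] L).comp (C.comp (algebraMap R K))) (algebraMap K[X] L X)
    (algebraMap K[X] L (C (algebraMap R K p)) * xinv K L) (by
      rw [mul_comm (algebraMap K[X] L (C _)), ← mul_assoc, x_mul_xinv, one_mul]
      rfl)

omit [IsDomain R] [IsLocalization.Away p K] in
lemma beta_bA (a : R[X]) : beta K L p (bA R p a) = algebraMap K[X] L (a.map (algebraMap R K)) := by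
  rw [beta, bLift_bA]
  induction a using Polynomial.induction_on' with
  | add a b ha hb => rw [eval₂_add, ha, hb, Polynomial.map_add, map_add]
  | monomial n r =>
    rw [eval₂_monomial, map_monomial, ← C_mul_X_pow_eq_monomial, map_mul, map_pow]
    rfl

omit [IsDomain R] [IsLocalization.Away p K] in
lemma beta_bx : beta K L p (bx R p) = algebraMap K[X] L X := by
  rw [beta, bLift_bx]

omit [IsDomain R] [IsLocalization.Away p K] in
lemma beta_bt : beta K L p (bt R p) = algebraMap K[X] L (C (algebraMap R K p)) * xinv K L := by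
  rw [beta, bLift_bt]

omit [IsDomain R] [IsLocalization.Away p K] in
lemma beta_bR (r : R) : beta K L p (bR R p r) = algebraMap K[X] L (C (algebraMap R K r)) := by
  rw [beta, bLift_bR]
  rfl

omit [Algebra R K] [IsLocalization.Away p K] in
lemma inj_L : Function.Injective (algebraMap K[X] L) := by
  apply IsLocalization.injective L (M := Submonoid.powers (X : K[X]))
  exact powers_le_nonZeroDivisors_of_noZeroDivisors X_ne_zero

include hp in
lemma inj_K : Function.Injective (algebraMap R K) := by
  apply IsLocalization.injective K (M := Submonoid.powers p)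
  exact powers_le_nonZeroDivisors_of_noZeroDivisors hp.ne_zero

include hp in
lemma regular_x_pow (N : ℕ) (b : BB R p) (h : bx R p ^ N * b = 0) : b = 0 := by
  induction N with
  | zero => simpa using h
  | succ N ih =>
    apply ih
    apply regular_x hp
    rw [← mul_assoc, ← pow_succ', h]

include hp in
lemma beta_injective : Function.Injective (beta K L p) := by
  rw [injective_iff_map_eq_zero]
  intro b hb
  obtain ⟨N, Q, hQ⟩ := exists_pow_mul b
  have h1 := congrArg (beta K L p) hQ
  rw [map_mul, hb, mul_zero, beta_bA] at h1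
  have h2 : Q.map (algebraMap R K) = 0 := inj_L K L (by rw [← h1, map_zero])
  have h3 : Q = 0 := (Polynomial.map_eq_zero_iff (inj_K hp K)).1 h2
  rw [h3, map_zero] at hQ
  exact regular_x_pow hp N b hQ

include hp in
/-- the elements which are polynomials over `K` are polynomials over `R` -/
lemma exists_poly (b : BB R p) (c : K[X]) (h : beta K L p b = algebraMap K[X] L c) :
    ∃ r : R[X], b = bA R p r := by
  obtain ⟨N, Q, hQ⟩ := exists_pow_mul b
  have h1 := congrArg (beta K L p) hQ
  rw [map_mul, map_pow, beta_bx, h, beta_bA, ← map_pow, ← map_mul] at h1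
  have h2 := inj_L K L h1
  have h3 : X ^ N ∣ Q := by
    rw [X_pow_dvd_iff]
    intro i hi
    have h4 := congrArg (fun P => P.coeff i) h2
    simp only [coeff_X_pow_mul', coeff_map] at h4
    rw [if_neg (by omega)] at h4
    apply inj_K hp K
    rw [← h4, map_zero]
  obtain ⟨r, rfl⟩ := h3
  refine ⟨r, ?_⟩
  have h5 : bx R p ^ N * (b - bA R p r) = 0 := by
    rw [mul_sub, hQ, map_mul, map_pow, bA_X, sub_self]
  exact sub_eq_zero.1 (regular_x_pow hp N _ h5)

omit [IsDomain R] in
lemma exists_clear (p : R) [IsLocalization.Away p K] (f : K[X]) :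
    ∃ (a : ℕ) (r : R[X]), C (algebraMap R K p) ^ a * f = r.map (algebraMap R K) := by
  induction f using Polynomial.induction_on' with
  | add f g hf hg =>
    obtain ⟨a, r, hr⟩ := hf
    obtain ⟨a', r', hr'⟩ := hg
    refine ⟨a + a', C p ^ a' * r + C p ^ a * r', ?_⟩
    simp only [Polynomial.map_add, Polynomial.map_mul, Polynomial.map_pow, Polynomial.map_C, ← hr,
      ← hr']
    ring
  | monomial n c =>
    obtain ⟨a, r, hr⟩ := IsLocalization.Away.surj p c
    refine ⟨a, monomial n r, ?_⟩
    rw [← C_pow, C_mul_monomial, map_monomial, ← hr, mul_comm]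

include hp in
lemma isLocalization_beta :
    @IsLocalization.Away _ _ (bR R p p) L _ (beta K L p).toAlgebra := by
  let _ := (beta K L p).toAlgebra
  have hal : ∀ b, algebraMap (BB R p) L b = beta K L p b := fun _ => rfl
  refine ⟨?_, ?_, ?_⟩
  · rintro ⟨_, n, rfl⟩
    simp only [hal, map_pow]
    apply IsUnit.pow
    rw [beta_bR]
    apply IsUnit.map
    rw [isUnit_C]
    exact IsLocalization.Away.algebraMap_isUnit p
  · intro z
    obtain ⟨n, f, hf⟩ := IsLocalization.Away.surj (X : K[X]) z
    obtain ⟨a, r, hr⟩ := exists_clear K p f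
    refine ⟨⟨bA R p r * bt R p ^ n, ⟨bR R p p ^ (a + n), a + n, rfl⟩⟩, ?_⟩
    have h1 : z = algebraMap K[X] L f * xinv K L ^ n := by
      rw [← hf, mul_assoc, ← mul_pow, x_mul_xinv, one_pow, mul_one]
    simp only [hal, map_mul, map_pow, beta_bR, beta_bt, beta_bA, ← hr]
    rw [h1]
    ring
  · intro b b' h
    exact ⟨1, by rw [beta_injective hp K L h]⟩

end

end Pool.Agent.Q37.QA
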