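import Pool.Agent.W506.Q2
import Pool.Agent.W506.S10

/-!
Quasi-coherent modules in terms of sections over an affine open set: cokernels, isomorphisms.
-/

universe u v

open CategoryTheory Limits Opposite TopologicalSpace AlgebraicGeometry

namespace Pool.Agent.Q37.QA

open Pool.Agent.W506

set_option backward.isDefEq.respectTransparency false

variable {X : Scheme.{u}}

lemma ap_fg (S : ShortComplex X.Modules) (U : X.Opens) (a : Γ(S.X₁, U)) :
    ap S.g U (ap S.f U a) = 0 := by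
  rw [← ap_comp, S.zero]
  rfl

lemma unit_smul_cancel {N : X.Modules} {V : X.Opens} {r : Γ(X, V)} (hr : IsUnit r) (k : ℕ)
    {a b : Γ(N, V)} (h : r ^ k • a = r ^ k • b) : a = b := by
  obtain ⟨v, hv⟩ := hr.exists_left_inv
  have h1 := congrArg (fun z => v ^ k • z) h
  simp only [smul_smul, ← mul_pow, hv, one_pow, one_smul] at h1
  exact h1

lemma qcOn_coker (S : ShortComplex X.Modules) (hS : S.ShortExact) {W : X.Opens}
    (h₁ : QCOn S.X₁ W) (h₂ : QCOn S.X₂ W) : QCOn S.X₃ W := by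
  have := hS.mono_f
  have hsurj : ∀ (V : X.Opens), IsAffineOpen V → V ≤ W → Function.Surjective (ap S.g V) :=
    fun V hV hle => ap_surjective_of_sumOn S hS h₁.sumOn hV hle
  constructor
  · intro W' hW' hle f s
    obtain ⟨m, rfl⟩ := hsurj _ (hW'.basicOpen f) ((X.basicOpen_le f).trans hle) s
    obtain ⟨k, t, ht⟩ := h₂.ext W' hW' hle f m
    exact ⟨k, ap S.g _ t, by rw [← ap_rs, ht, map_smul]⟩
  · intro W' hW' hle f t ht
    obtain ⟨m, rfl⟩ := hsurj _ hW' hle t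
    rw [← ap_rs] at ht
    obtain ⟨n, hn⟩ := ap_exact S hS.exact _ _ ht
    obtain ⟨k, n', hn'⟩ := h₁.ext W' hW' hle f n
    have h3 : rs S.X₂ (X.basicOpen_le f) (f ^ k • m - ap S.f W' n') = 0 := by
      rw [map_sub, rs_smul, map_pow, ← ap_rs, hn', map_smul, hn, sub_self]
    obtain ⟨l, hl⟩ := h₂.uniq W' hW' hle f _ h3
    refine ⟨l + k, ?_⟩
    have h4 := congrArg (ap S.g W') hl
    rw [map_smul, map_sub, ap_fg, sub_zero, map_zero, map_smul, smul_smul, ← pow_add] at h4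
    exact h4

/-- local vanishing -/
lemma zero_of_qc {N : X.Modules} {U : X.Opens} (hU : IsAffineOpen U) (hN : QCOn N U)
    (h : Subsingleton Γ(N, U)) (V : X.Opens) (hV : V ≤ U) : Subsingleton Γ(N, V) := by
  have key : ∀ s : Γ(N, V), s = 0 := by
    intro s
    apply ext_rs_of_mem
    intro x hx
    obtain ⟨f, hle, hxf⟩ := hU.exists_basicOpen_le (V := V) ⟨x, hx⟩ (hV hx)
    refine ⟨_, hle, hxf, ?_⟩
    obtain ⟨k, t, ht⟩ := hN.ext U hU le_rfl f (rs N hle s)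
    rw [Subsingleton.elim t 0, map_zero] at ht
    apply unit_smul_cancel (isUnit_ro_basicOpen f) k
    rw [← ht, map_zero, smul_zero]
  exact ⟨fun a b => by rw [key a, key b]⟩

lemma injOn_of_qc {M N : X.Modules} (φ : M ⟶ N) {U : X.Opens} (hU : IsAffineOpen U)
    (hM : QCOn M U) (hN : QCOn N U) (h : Function.Injective (ap φ U)) (V : X.Opens)
    (hV : V ≤ U) : Function.Injective (ap φ V) := by
  rw [injective_iff_map_eq_zero]
  intro s hs
  apply ext_rs_of_mem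
  intro x hx
  obtain ⟨f, hle, hxf⟩ := hU.exists_basicOpen_le (V := V) ⟨x, hx⟩ (hV hx)
  refine ⟨_, hle, hxf, ?_⟩
  obtain ⟨k, t, ht⟩ := hM.ext U hU le_rfl f (rs M hle s)
  have h1 : rs N (X.basicOpen_le f) (ap φ U t) = 0 := by
    rw [← ap_rs, ht, map_smul, ap_rs, hs, map_zero, smul_zero]
  obtain ⟨l, hl⟩ := hN.uniq U hU le_rfl f _ h1
  rw [← map_smul] at hl
  have h2 : f ^ l • t = 0 := h (by rw [hl, map_zero])
  have h3 := congrArg (rs M (X.basicOpen_le f)) h2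
  rw [rs_smul, ht, map_zero, smul_smul, map_pow, ← pow_add] at h3
  apply unit_smul_cancel (isUnit_ro_basicOpen f) (l + k)
  rw [h3, map_zero, smul_zero]

/-- isomorphisms are detected on an affine open set -/
lemma isoOn_of_qc {M N : X.Modules} (φ : M ⟶ N) {U : X.Opens} (hU : IsAffineOpen U)
    (hM : QCOn M U) (hN : QCOn N U) (h : Function.Bijective (ap φ U)) : IsoOn φ U := by
  intro V hV
  have hinj := fun V hV => injOn_of_qc φ hU hM hN h.1 V hV
  refine ⟨hinj V hV, fun s => ?_⟩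
  have h1 : ∀ x : V, ∃ (B : X.Opens) (hB : B ≤ V) (_ : x.1 ∈ B) (y : Γ(M, B)),
      ap φ B y = rs N hB s := by
    intro x
    obtain ⟨f, hle, hxf⟩ := hU.exists_basicOpen_le (V := V) x (hV x.2)
    obtain ⟨k, t, ht⟩ := hN.ext U hU le_rfl f (rs N hle s)
    obtain ⟨y, rfl⟩ := h.2 t
    obtain ⟨v, hv⟩ := (isUnit_ro_basicOpen f).exists_left_inv
    refine ⟨_, hle, hxf, v ^ k • rs M (X.basicOpen_le f) y, ?_⟩
    rw [map_smul, ap_rs, ht, smul_smul, ← mul_pow, hv, one_pow, one_smul]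
  choose B hB hxB y hy using h1
  obtain ⟨t, ht⟩ := exists_glue B hB (fun x hx => Opens.mem_iSup.2 ⟨⟨x, hx⟩, hxB _⟩) y (by
    intro i j
    apply hinj _ ((inf_le_left.trans (hB i)).trans hV)
    rw [ap_rs, ap_rs, hy, hy, rs_rs, rs_rs])
  refine ⟨t, ?_⟩
  apply ext_rs_of_mem
  intro x hx
  exact ⟨B ⟨x, hx⟩, hB _, hxB _, by rw [← ap_rs, ht, hy]⟩

lemma isIso_of_isoOn₂ {M N : X.Modules} (φ : M ⟶ N) {U W : X.Opens} (hc : ⊤ ≤ U ⊔ W)
    (h1 : IsoOn φ U) (h2 : IsoOn φ W) : IsIso φ := by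
  have hcV : ∀ V : X.Opens, V ≤ (V ⊓ U) ⊔ (V ⊓ W) := by
    intro V
    rw [← inf_sup_left]
    exact le_inf le_rfl (le_top.trans hc)
  have hinj : ∀ V, Function.Injective (ap φ V) := by
    intro V
    rw [injective_iff_map_eq_zero]
    intro s hs
    apply ext_rs₂ (inf_le_left : V ⊓ U ≤ V) (inf_le_left : V ⊓ W ≤ V) (hcV V)
    · apply (h1 _ inf_le_right).1
      rw [ap_rs, hs, map_zero, map_zero, map_zero]
    · apply (h2 _ inf_le_right).1
      rw [ap_rs, hs, map_zero, map_zero, map_zero]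
  apply isIso_of_ap_bijective
  intro V
  refine ⟨hinj V, fun s => ?_⟩
  obtain ⟨a, ha⟩ := (h1 (V ⊓ U) inf_le_right).2 (rs N inf_le_left s)
  obtain ⟨b, hb⟩ := (h2 (V ⊓ W) inf_le_right).2 (rs N inf_le_left s)
  obtain ⟨t, ht1, ht2⟩ := exists_glue₂ (inf_le_left : V ⊓ U ≤ V) (inf_le_left : V ⊓ W ≤ V)
    (hcV V) a b (by
      apply hinj
      rw [ap_rs, ap_rs, ha, hb, rs_rs, rs_rs])
  refine ⟨t, ?_⟩
  apply ext_rs₂ (inf_le_left : V ⊓ U ≤ V) (inf_le_left : V ⊓ W ≤ V) (hcV V)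
  · rw [← ap_rs, ht1, ha]
  · rw [← ap_rs, ht2, hb]

lemma isoOn_of_subsingleton {M N : X.Modules} (φ : M ⟶ N) {W : X.Opens}
    (hM : ∀ V ≤ W, Subsingleton Γ(M, V)) (hN : ∀ V ≤ W, Subsingleton Γ(N, V)) : IsoOn φ W := by
  intro V hV
  have := hM V hV
  have := hN V hV
  exact ⟨fun a b _ => Subsingleton.elim _ _, fun b => ⟨0, Subsingleton.elim _ _⟩⟩

lemma qcOn_of_subsingleton {M : X.Modules} {W : X.Opens}
    (hM : ∀ V ≤ W, Subsingleton Γ(M, V)) : QCOn M W := by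
  constructor
  · intro W' hW' hle f s
    have := hM _ ((X.basicOpen_le f).trans hle)
    exact ⟨0, 0, Subsingleton.elim _ _⟩
  · intro W' hW' hle f t ht
    have := hM _ hle
    exact ⟨0, Subsingleton.elim _ _⟩

/-- coherence over an affine open set in terms of sections -/
structure CO (M : X.Modules) (U : X.Opens) : Prop where
  qc : QCOn M U
  fin : Module.Finite Γ(X, U) Γ(M, U)

lemma CO.kernel (S : ShortComplex X.Modules) (hS : S.Exact) [Mono S.f] {U : X.Opens}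
    (hN : IsNoetherianRing Γ(X, U)) (h₂ : CO S.X₂ U) (h₃ : QCOn S.X₃ U) : CO S.X₁ U := by
  refine ⟨qcOn_kernel S hS h₂.qc h₃, ?_⟩
  have := h₂.fin
  have : IsNoetherian Γ(X, U) Γ(S.X₂, U) := isNoetherian_of_isNoetherianRing_of_finite _ _
  exact Module.Finite.of_injective (ap S.f U) (ap_injective S.f U)

lemma CO.coker (S : ShortComplex X.Modules) (hS : S.ShortExact) {U : X.Opens}
    (hU : IsAffineOpen U) (h₁ : QCOn S.X₁ U) (h₂ : CO S.X₂ U) : CO S.X₃ U := by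
  refine ⟨qcOn_coker S hS h₁ h₂.qc, ?_⟩
  have := h₂.fin
  exact Module.Finite.of_surjective (ap S.g U)
    (ap_surjective_of_sumOn S hS h₁.sumOn hU le_rfl)

lemma CO.biprod {M N : X.Modules} {U : X.Opens} (hM : CO M U) (hN : CO N U) : CO (M ⊞ N) U := by
  refine ⟨qcOn_biprod hM.qc hN.qc, ?_⟩
  have := hM.fin
  have := hN.fin
  let φ : (Γ(M, U) × Γ(N, U)) →ₗ[Γ(X, U)] Γ(M ⊞ N, U) :=
    (ap (biprod.inl : M ⟶ M ⊞ N) U).coprod (ap (biprod.inr : N ⟶ M ⊞ N) U)
  refine Module.Finite.of_surjective φ ?_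
  intro s
  exact ⟨(ap biprod.fst U s, ap biprod.snd U s), (biprod_section s).symm⟩

lemma CO.of_isoOn {M N : X.Modules} {φ : M ⟶ N} {U : X.Opens} (h : IsoOn φ U) (hM : CO M U) :
    CO N U := by
  refine ⟨hM.qc.map h, ?_⟩
  have := hM.fin
  exact Module.Finite.of_surjective (ap φ U) (h U le_rfl).2

lemma CO.of_isoOn' {M N : X.Modules} {φ : M ⟶ N} {U : X.Opens} (h : IsoOn φ U) (hN : CO N U) :
    CO M U := by
  refine ⟨hN.qc.comap h, ?_⟩
  have := hN.fin
  exact Module.Finite.equiv (LinearEquiv.ofBijective (ap φ U) (h U le_rfl)).symm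

lemma isoOn_of_iso {M N : X.Modules} (e : M ≅ N) (U : X.Opens) : IsoOn e.hom U :=
  fun V _ => ap_bijective_of_isIso e.hom V

lemma CO.of_iso {M N : X.Modules} (e : M ≅ N) {U : X.Opens} (h : CO M U) : CO N U :=
  h.of_isoOn (isoOn_of_iso e U)

lemma co_of_subsingleton {M : X.Modules} {W : X.Opens}
    (hM : ∀ V ≤ W, Subsingleton Γ(M, V)) : CO M W := by
  refine ⟨qcOn_of_subsingleton hM, ?_⟩
  have := hM W le_rfl
  infer_instance

end Pool.Agent.Q37.QA
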