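import Pool.Agent.TH215.TM.HV
import Pool.Agent.W456.Geo8

/-!
Thick properties of objects of an abelian category and of its derived category.
-/

universe u v w

open CategoryTheory Limits Pretriangulated

namespace Pool.Agent.Q37.QA

section ab

variable {A : Type u} [Category.{v} A] [Abelian A]

/-- a property of objects which is stable under extensions, kernels of epimorphisms, cokernels of
monomorphisms and retracts -/
structure ThickP (S : A → Prop) : Prop where
  zero : ∀ M, IsZero M → S M
  two₁ : ∀ K : ShortComplex A, K.ShortExact → S K.X₂ → S K.X₃ → S K.X₁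
  two₂ : ∀ K : ShortComplex A, K.ShortExact → S K.X₁ → S K.X₃ → S K.X₂
  two₃ : ∀ K : ShortComplex A, K.ShortExact → S K.X₁ → S K.X₂ → S K.X₃
  retract : ∀ {M N : A} (i : M ⟶ N) (r : N ⟶ M), i ≫ r = 𝟙 M → S N → S M

lemma ThickP.iso {S : A → Prop} (hS : ThickP S) {M N : A} (e : M ≅ N) (h : S M) : S N :=
  hS.retract e.inv e.hom e.inv_hom_id h

/-- kernel sequence of an epimorphism -/
noncomputable def kerS {M N : A} (φ : M ⟶ N) : ShortComplex A :=
  ShortComplex.mk (kernel.ι φ) φ (kernel.condition φ)

lemma kerS_exact {M N : A} (φ : M ⟶ N) : (kerS φ).Exact := ShortComplex.exact_kernel φ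

instance {M N : A} (φ : M ⟶ N) : Mono (kerS φ).f := inferInstanceAs (Mono (kernel.ι φ))

lemma kerS_shortExact {M N : A} (φ : M ⟶ N) [Epi φ] : (kerS φ).ShortExact where
  exact := kerS_exact φ
  mono_f := inferInstance
  epi_g := inferInstanceAs (Epi φ)

/-- cokernel sequence of a monomorphism -/
noncomputable def cokS {M N : A} (φ : M ⟶ N) : ShortComplex A :=
  ShortComplex.mk φ (cokernel.π φ) (cokernel.condition φ)

lemma cokS_shortExact {M N : A} (φ : M ⟶ N) [Mono φ] : (cokS φ).ShortExact where
  exact := ShortComplex.exact_cokernel φ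
  mono_f := inferInstanceAs (Mono φ)
  epi_g := inferInstanceAs (Epi (cokernel.π φ))

/-- the sequence `0 → ker → M → im → 0` -/
noncomputable def imS₁ {M N : A} (φ : M ⟶ N) : ShortComplex A :=
  kerS (factorThruImage φ)

lemma imS₁_shortExact {M N : A} (φ : M ⟶ N) : (imS₁ φ).ShortExact :=
  kerS_shortExact _

/-- the sequence `0 → im → N → coker → 0` -/
noncomputable def imS₂ {M N : A} (φ : M ⟶ N) : ShortComplex A :=
  cokS (Limits.image.ι φ)

lemma imS₂_shortExact {M N : A} (φ : M ⟶ N) : (imS₂ φ).ShortExact :=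
  cokS_shortExact _

lemma ThickP.ext_of_map {S : A → Prop} (hS : ThickP S) {M N : A} (φ : M ⟶ N)
    (hM : S M) (hk : S (imS₁ φ).X₁) (hc : S (imS₂ φ).X₃) : S N :=
  hS.two₂ _ (imS₂_shortExact φ) (hS.two₃ _ (imS₁_shortExact φ) hk hM) hc

lemma ThickP.biprod {S : A → Prop} (hS : ThickP S) {M N : A} (hM : S M) (hN : S N) :
    S (M ⊞ N) := by
  refine hS.two₂ (ShortComplex.mk (biprod.inl : M ⟶ M ⊞ N) biprod.snd (by simp)) ?_ hM hN
  exact (ShortComplex.Splitting.ofHasBinaryBiproduct M N).shortExact

end ab

section derived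

open DerivedCategory

variable {A : Type u} [Category.{v} A] [Abelian A] [HasDerivedCategory.{w} A]

/-- The modules belonging to a thick subcategory of the derived category. -/
lemma thickP_of_triangulated (T : ObjectProperty (DerivedCategory A)) [T.IsTriangulated]
    [T.IsStableUnderRetracts] : ThickP (fun M : A => T ((singleFunctor A 0).obj M)) where
  zero M hM := by
    obtain ⟨Z, hZ, hT⟩ := T.exists_prop_of_containsZero
    exact T.prop_of_iso (hZ.iso ((singleFunctor A 0).map_isZero hM)) hT
  two₁ K hK h2 h3 := T.ext_of_isTriangulatedClosed₁ _ hK.singleTriangle_distinguished h2 h3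
  two₂ K hK h1 h3 := T.ext_of_isTriangulatedClosed₂ _ hK.singleTriangle_distinguished h1 h3
  two₃ K hK h1 h2 := T.ext_of_isTriangulatedClosed₃ _ hK.singleTriangle_distinguished h1 h2
  retract i r h hN := by
    refine T.prop_of_retract ⟨(singleFunctor A 0).map i, (singleFunctor A 0).map r, ?_⟩ hN
    rw [← Functor.map_comp, h, CategoryTheory.Functor.map_id]

/-- Bounded objects with cohomology in a thick subcategory belong to it. -/
lemma mem_of_homology (T : ObjectProperty (DerivedCategory A)) [T.IsTriangulated]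
    [T.IsStableUnderRetracts] (E : DerivedCategory A)
    (bE : ∃ a b : ℤ, ∀ i : ℤ, (i < a ∨ b < i) → IsZero ((homologyFunctor A i).obj E))
    (h : ∀ i : ℤ, T ((singleFunctor A 0).obj ((homologyFunctor A i).obj E))) : T E := by
  obtain ⟨k, a, ha⟩ := TH215.TM.amplitude bE
  refine TH215.TM.bounded_induction T ?_ ?_ k a E ha ?_
  · intro Y hY
    obtain ⟨Z, hZ, hT⟩ := T.exists_prop_of_containsZero
    exact T.prop_of_iso (hZ.iso hY) hT
  · intro t ht h1 h3
    exact T.ext_of_isTriangulatedClosed₂ _ ht h1 h3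
  · intro i
    exact T.prop_of_iso (TH215.TM.singleShift _ i).symm (T.le_shift (-i) _ (h i))

end derived

end Pool.Agent.Q37.QA
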