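import Pool.Agent.Q37.QA.Coh
import Pool.Agent.Q37.QA.Thick

/-!
Coherent modules on a scheme which is the union of an affine open set and of an affine basic open
set.
-/

universe u v

open CategoryTheory Limits Opposite TopologicalSpace AlgebraicGeometry

namespace Pool.Agent.Q37.QA

open Pool.Agent.W506

set_option backward.isDefEq.respectTransparency false

/-- The scheme is the union of the affine open sets `U` and `W`, where `W` is the set where the
global function `p` does not vanish; on `U` the function `p` is the product of the global function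
`x` and of the function `t`. -/
structure Dat (X : Scheme.{u}) where
  U : X.Opens
  p : Γ(X, ⊤)
  x : Γ(X, ⊤)
  t : Γ(X, U)
  hU : IsAffineOpen U
  hW : IsAffineOpen (X.basicOpen p)
  cov : ⊤ ≤ U ⊔ X.basicOpen p
  hp : ro (le_top : U ≤ ⊤) p = ro (le_top : U ≤ ⊤) x * t
  noe : IsNoetherianRing Γ(X, U)
  pidW : IsPrincipalIdealRing Γ(X, X.basicOpen p)
  domW : IsDomain Γ(X, X.basicOpen p)
  regU : ∀ b : Γ(X, U), ro (le_top : U ≤ ⊤) p * b = 0 → b = 0
  regW : ∀ c : Γ(X, X.basicOpen p), ro (le_top : X.basicOpen p ≤ ⊤) x * c = 0 → c = 0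
  pidx : IsPrincipalIdealRing (Γ(X, U) ⧸ Ideal.span {ro (le_top : U ≤ ⊤) x})
  domx : IsDomain (Γ(X, U) ⧸ Ideal.span {ro (le_top : U ≤ ⊤) x})
  pidt : IsPrincipalIdealRing (Γ(X, U) ⧸ Ideal.span {t})
  domt : IsDomain (Γ(X, U) ⧸ Ideal.span {t})

variable {X : Scheme.{u}} (d : Dat X)

/-- the second affine open set -/
abbrev Dat.W : X.Opens := X.basicOpen d.p

lemma Dat.noeW : IsNoetherianRing Γ(X, d.W) := by
  have := d.pidW
  infer_instance

/-- coherence -/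
structure CX (M : X.Modules) : Prop where
  u : CO M d.U
  w : CO M d.W

variable {d}

lemma CX.ker {S : ShortComplex X.Modules} (hS : S.Exact) [Mono S.f] (h2 : CX d S.X₂)
    (h3 : CX d S.X₃) : CX d S.X₁ :=
  ⟨CO.kernel S hS d.noe h2.u h3.u.qc, CO.kernel S hS d.noeW h2.w h3.w.qc⟩

lemma CX.coker {S : ShortComplex X.Modules} (hS : S.ShortExact) (h1 : CX d S.X₁)
    (h2 : CX d S.X₂) : CX d S.X₃ :=
  ⟨CO.coker S hS d.hU h1.u.qc h2.u, CO.coker S hS d.hW h1.w.qc h2.w⟩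

lemma CX.iso {M N : X.Modules} (e : M ≅ N) (h : CX d M) : CX d N := ⟨h.u.of_iso e, h.w.of_iso e⟩

lemma CX.biprod {M N : X.Modules} (hM : CX d M) (hN : CX d N) : CX d (M ⊞ N) :=
  ⟨hM.u.biprod hN.u, hM.w.biprod hN.w⟩

lemma CX.im₁ {M N : X.Modules} (φ : M ⟶ N) (hM : CX d M) (hN : CX d N) :
    CX d (imS₁ φ).X₁ :=
  CX.iso (kernelFactorThruImage φ).symm (CX.ker (S := kerS φ) (kerS_exact φ) hM hN)

lemma CX.im {M N : X.Modules} (φ : M ⟶ N) (hM : CX d M) (hN : CX d N) :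
    CX d (imS₁ φ).X₃ := CX.coker (imS₁_shortExact φ) (CX.im₁ φ hM hN) hM

lemma CX.im₂ {M N : X.Modules} (φ : M ⟶ N) (hM : CX d M) (hN : CX d N) :
    CX d (imS₂ φ).X₃ := CX.coker (imS₂_shortExact φ) (CX.im φ hM hN) hN

lemma surjU {S : ShortComplex X.Modules} (hS : S.ShortExact) (h1 : CX d S.X₁) :
    Function.Surjective (ap S.g d.U) :=
  ap_surjective_of_sumOn S hS h1.u.qc.sumOn d.hU le_rfl

lemma surjW {S : ShortComplex X.Modules} (hS : S.ShortExact) (h1 : CX d S.X₁) :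
    Function.Surjective (ap S.g d.W) :=
  ap_surjective_of_sumOn S hS h1.w.qc.sumOn d.hW le_rfl

lemma epi_of_surj₂ {M N : X.Modules} (φ : M ⟶ N) (hN : CX d N)
    (h1 : Function.Surjective (ap φ d.U)) (h2 : Function.Surjective (ap φ d.W)) : Epi φ := by
  apply epi_of_locally_surj
  intro V s x hx
  have key : ∀ (U : X.Opens) (_ : IsAffineOpen U) (_ : QCOn N U)
      (_ : Function.Surjective (ap φ U)) (_ : x ∈ U),
      ∃ (V' : X.Opens) (hV : V' ≤ V) (_ : x ∈ V') (t : Γ(M, V')), ap φ V' t = rs N hV s := by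
    intro U hU hN h hxU
    obtain ⟨f, hle, hxf⟩ := hU.exists_basicOpen_le (V := V) ⟨x, hx⟩ hxU
    obtain ⟨k, t, ht⟩ := hN.ext U hU le_rfl f (rs N hle s)
    obtain ⟨y, rfl⟩ := h t
    obtain ⟨v, hv⟩ := (isUnit_ro_basicOpen f).exists_left_inv
    refine ⟨_, hle, hxf, v ^ k • rs M (X.basicOpen_le f) y, ?_⟩
    rw [map_smul, ap_rs, ht, smul_smul, ← mul_pow, hv, one_pow, one_smul]
  rcases d.cov (Opens.mem_top x) with hx' | hx'
  · exact key _ d.hU hN.u.qc h1 hx'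
  · exact key _ d.hW hN.w.qc h2 hx'

variable (d) in
/-- coherent modules which vanish on the second affine open set -/
structure ZZ (M : X.Modules) : Prop where
  cx : CX d M
  van : Subsingleton Γ(M, d.W)

lemma ZZ.vanish {M : X.Modules} (h : ZZ d M) (V : X.Opens) (hV : V ≤ d.W) :
    Subsingleton Γ(M, V) := zero_of_qc d.hW h.cx.w.qc h.van V hV

lemma ZZ.of_inj {M N : X.Modules} (φ : M ⟶ N) (hM : CX d M) (hN : CX d N)
    (h : Function.Injective (ap φ d.W)) : ZZ d (imS₁ φ).X₁ := by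
  refine ⟨CX.im₁ φ hM hN, ⟨fun a b => ?_⟩⟩
  have h0 : kernel.ι (factorThruImage φ) ≫ φ = 0 := by
    calc kernel.ι (factorThruImage φ) ≫ φ
        = kernel.ι (factorThruImage φ) ≫ factorThruImage φ ≫ Limits.image.ι φ := by
          rw [Limits.image.fac]
      _ = 0 := by rw [← Category.assoc, kernel.condition, zero_comp]
  have h2 : ∀ c : Γ(kernel (factorThruImage φ), d.W),
      ap φ d.W (ap (kernel.ι (factorThruImage φ)) d.W c) = 0 := by
    intro c
    rw [← ap_comp, h0]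
    rfl
  apply ap_injective (kernel.ι (factorThruImage φ))
  apply h
  exact (h2 a).trans (h2 b).symm

lemma ZZ.of_surj {M N : X.Modules} (φ : M ⟶ N) (hM : CX d M) (hN : CX d N)
    (h : Function.Surjective (ap φ d.W)) : ZZ d (imS₂ φ).X₃ := by
  refine ⟨CX.im₂ φ hM hN, ?_⟩
  have key : ∀ s : Γ((imS₂ φ).X₃, d.W), s = 0 := by
    intro s
    obtain ⟨n, rfl⟩ := surjW (imS₂_shortExact φ) (CX.im φ hM hN) s
    obtain ⟨m, rfl⟩ := h n
    have h0 : φ ≫ cokernel.π (Limits.image.ι φ) = 0 := by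
      calc φ ≫ cokernel.π (Limits.image.ι φ)
          = (factorThruImage φ ≫ Limits.image.ι φ) ≫ cokernel.π (Limits.image.ι φ) := by
            rw [Limits.image.fac]
        _ = 0 := by rw [Category.assoc, cokernel.condition, comp_zero]
    have h2 : ap (cokernel.π (Limits.image.ι φ)) d.W (ap φ d.W m) = 0 := by
      rw [← ap_comp, h0]
      rfl
    exact h2
  exact ⟨fun a b => by rw [key a, key b]⟩

lemma ZZ.ker {M N : X.Modules} (φ : M ⟶ N) (hM : ZZ d M) (hN : CX d N) :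
    ZZ d (imS₁ φ).X₁ :=
  ZZ.of_inj φ hM.cx hN (fun a b _ => @Subsingleton.elim _ hM.van a b)

lemma ZZ.coker {S : ShortComplex X.Modules} (hS : S.ShortExact) (h1 : CX d S.X₁)
    (h2 : ZZ d S.X₂) : ZZ d S.X₃ := by
  refine ⟨CX.coker hS h1 h2.cx, ?_⟩
  have := h2.van
  exact (surjW hS h1).subsingleton

lemma ZZ.im {M N : X.Modules} (φ : M ⟶ N) (hM : ZZ d M) (hN : CX d N) :
    ZZ d (imS₁ φ).X₃ := ZZ.coker (imS₁_shortExact φ) (ZZ.ker φ hM hN).cx hM

lemma ZZ.iso {M N : X.Modules} (e : M ≅ N) (h : ZZ d M) : ZZ d N := by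
  refine ⟨h.cx.iso e, ?_⟩
  have := h.van
  exact (ap_bijective_of_isIso e.hom d.W).2.subsingleton

lemma ZZ.biprod {M N : X.Modules} (hM : ZZ d M) (hN : ZZ d N) : ZZ d (M ⊞ N) := by
  refine ⟨hM.cx.biprod hN.cx, ?_⟩
  have := hM.van
  have := hN.van
  refine ⟨fun a b => ?_⟩
  rw [biprod_section a, biprod_section b]
  congr 2 <;> exact Subsingleton.elim _ _

/-- isomorphisms between modules vanishing on the second open set -/
lemma ZZ.isIso {M N : X.Modules} (hM : ZZ d M) (hN : ZZ d N) (φ : M ⟶ N)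
    (h : Function.Bijective (ap φ d.U)) : IsIso φ :=
  isIso_of_isoOn₂ φ d.cov (isoOn_of_qc φ d.hU hM.cx.u.qc hN.cx.u.qc h)
    (isoOn_of_subsingleton φ hM.vanish hN.vanish)

lemma ZZ.epi {M N : X.Modules} (hN : ZZ d N) (φ : M ⟶ N)
    (h : Function.Surjective (ap φ d.U)) : Epi φ :=
  epi_of_surj₂ φ hN.cx h (fun _ => ⟨0, @Subsingleton.elim _ hN.van _ _⟩)

/-- extension of sections by zero -/
lemma ZZ.exists_ext {M : X.Modules} (hM : ZZ d M) (m : Γ(M, d.U)) :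
    ∃ m' : Γ(M, ⊤), rs M (le_top : d.U ≤ ⊤) m' = m := by
  obtain ⟨r, hr, -⟩ := exists_glue₂ (M := M) (le_top : d.U ≤ ⊤) (le_top : d.W ≤ ⊤) d.cov m 0
    (@Subsingleton.elim _ (hM.vanish (d.U ⊓ d.W) inf_le_right) _ _)
  exact ⟨r, hr⟩

lemma cov_inf (d : Dat X) (V : X.Opens) : V ≤ (V ⊓ d.U) ⊔ (V ⊓ d.W) := by
  rw [← inf_sup_left]
  exact le_inf le_rfl (le_top.trans d.cov)

lemma ZZ.ext_section {M : X.Modules} (hM : ZZ d M) {V : X.Opens} {s t : Γ(M, V)}
    (h : rs M (inf_le_left : V ⊓ d.U ≤ V) s = rs M inf_le_left t) : s = t :=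
  ext_rs₂ (inf_le_left : V ⊓ d.U ≤ V) (inf_le_left : V ⊓ d.W ≤ V) (cov_inf d V) h
    (@Subsingleton.elim _ (hM.vanish _ inf_le_right) _ _)

lemma ZZ.hom_ext {M N : X.Modules} (hM : CX d M) (hN : ZZ d N) {φ ψ : M ⟶ N}
    (h : ∀ m, ap φ d.U m = ap ψ d.U m) : φ = ψ := by
  have key : ∀ (V : X.Opens), V ≤ d.U → ∀ s : Γ(M, V), ap φ V s = ap ψ V s := by
    intro V hV s
    apply ext_rs_of_mem
    intro x hx
    obtain ⟨f, hle, hxf⟩ := d.hU.exists_basicOpen_le (V := V) ⟨x, hx⟩ (hV hx)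
    refine ⟨_, hle, hxf, ?_⟩
    obtain ⟨k, t, ht⟩ := hM.u.qc.ext d.U d.hU le_rfl f (rs M hle s)
    apply unit_smul_cancel (isUnit_ro_basicOpen f) k
    rw [← ap_rs, ← ap_rs, ← (ap φ _).map_smul, ← (ap ψ _).map_smul, ← ht, ap_rs, ap_rs, h]
  apply ap_ext
  intro V m
  apply hN.ext_section
  rw [← ap_rs, ← ap_rs]
  exact key _ inf_le_right _

end Pool.Agent.Q37.QA
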