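import Pool.Agent.Q37.QA.Dev1
import Pool.Agent.Q37.QA.Alg1

/-!
Generators of the coherent modules which vanish on the second open set.
-/

universe u v

open CategoryTheory Limits Opposite TopologicalSpace AlgebraicGeometry

namespace Pool.Agent.Q37.QA

open Pool.Agent.W506

set_option backward.isDefEq.respectTransparency false

variable {X : Scheme.{u}}

/-- the morphism given by a global section -/
lemma exists_hom_oo {M : X.Modules} (s : Γ(M, ⊤)) :
    ∃ f : OO X ⟶ M, ∀ (V : X.Opens) (r : Γ(X, V)),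
      ap f V (ooE V r) = r • rs M (le_top : V ≤ ⊤) s := by
  refine ⟨mkHom _ _ (fun V => (LinearMap.toSpanSingleton Γ(X, V) Γ(M, V)
    (rs M (le_top : V ≤ ⊤) s)).comp (ooE V).symm.toLinearMap) ?_, ?_⟩
  · intro U V h m
    obtain ⟨r, rfl⟩ := (ooE V).surjective m
    rw [← ooE_ro]
    simp only [LinearMap.comp_apply, LinearEquiv.coe_coe, LinearEquiv.symm_apply_apply,
      LinearMap.toSpanSingleton_apply]
    rw [rs_smul, rs_rs]
  · intro V r
    rw [ap_mkHom]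
    simp only [LinearMap.comp_apply, LinearEquiv.coe_coe, LinearEquiv.symm_apply_apply,
      LinearMap.toSpanSingleton_apply]

lemma rs_one {V : X.Opens} (h : V ≤ ⊤) : rs (OO X) h (ooE ⊤ 1) = ooE V 1 := by
  rw [← ooE_ro, map_one]

lemma isBasisOn_oo : IsBasisOn (fun _ : Fin 1 => ooE (X := X) ⊤ 1) := by
  intro V hV
  have h1 : comb (fun _ : Fin 1 => ooE (X := X) ⊤ 1) hV = fun a => ooE V (a 0) := by
    funext a
    rw [comb, Fin.sum_univ_one, rs_one, ← map_smul, smul_eq_mul, mul_one]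
  rw [h1]
  refine ⟨fun a b hab => ?_, fun s => ?_⟩
  · funext i
    rw [Subsingleton.elim i 0]
    exact (ooE V).injective hab
  · obtain ⟨r, rfl⟩ := (ooE V).surjective s
    exact ⟨fun _ => r, rfl⟩

variable {d : Dat X}

lemma cx_of_basis {N : X.Modules} {n : ℕ} {e : Fin n → Γ(N, ⊤)} (he : IsBasisOn e) : CX d N :=
  ⟨⟨(he.mono le_top).qcOn, Module.Finite.equiv ((he.mono le_top).equiv le_rfl)⟩,
    ⟨(he.mono le_top).qcOn, Module.Finite.equiv ((he.mono le_top).equiv le_rfl)⟩⟩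

lemma mono_of_inj₂ {M N : X.Modules} (φ : M ⟶ N) (hM : CX d M) (hN : CX d N)
    (h1 : Function.Injective (ap φ d.U)) (h2 : Function.Injective (ap φ d.W)) : Mono φ := by
  apply mono_of_ap_injective
  intro V
  rw [injective_iff_map_eq_zero]
  intro s hs
  apply ext_rs₂ (inf_le_left : V ⊓ d.U ≤ V) (inf_le_left : V ⊓ d.W ≤ V) (cov_inf d V)
  · apply injOn_of_qc φ d.hU hM.u.qc hN.u.qc h1 _ inf_le_right
    rw [ap_rs, hs, map_zero, map_zero, map_zero]
  · apply injOn_of_qc φ d.hW hM.w.qc hN.w.qc h2 _ inf_le_right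
    rw [ap_rs, hs, map_zero, map_zero, map_zero]

/-- the quotient of the structure sheaf by a global function -/
theorem exists_quot (d : Dat X) (y : Γ(X, ⊤))
    (hyU : ∀ b : Γ(X, d.U), ro (le_top : d.U ≤ ⊤) y * b = 0 → b = 0)
    (hyW : ∀ c : Γ(X, d.W), ro (le_top : d.W ≤ ⊤) y * c = 0 → c = 0)
    {S : X.Modules → Prop} (hS : ThickP S) (hO : S (OO X)) :
    ∃ (Q : X.Modules) (q : Γ(Q, ⊤)), S Q ∧ CX d Q ∧
      (∀ s : Γ(Q, d.U), ∃ b : Γ(X, d.U), s = b • rs Q (le_top : d.U ≤ ⊤) q) ∧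
      (∀ b : Γ(X, d.U), b • rs Q (le_top : d.U ≤ ⊤) q = 0 →
        ro (le_top : d.U ≤ ⊤) y ∣ b) ∧
      (∀ (V : X.Opens) (s : Γ(Q, V)), ro (le_top : V ≤ ⊤) y • s = 0) ∧
      (∀ (M : X.Modules) (m : Γ(M, ⊤)), y • m = 0 → ∃ ψ : Q ⟶ M, ap ψ ⊤ q = m) := by
  obtain ⟨f, hf⟩ := exists_hom_oo (ooE (X := X) ⊤ y)
  have hf' : ∀ (V : X.Opens) (r : Γ(X, V)),
      ap f V (ooE V r) = ooE V (r * ro (le_top : V ≤ ⊤) y) := by
    intro V r
    rw [hf, ← ooE_ro, ← map_smul, smul_eq_mul]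
  have hcx : CX d (OO X) := cx_of_basis isBasisOn_oo
  have inj : ∀ (V : X.Opens) (_ : ∀ b : Γ(X, V), ro (le_top : V ≤ ⊤) y * b = 0 → b = 0),
      Function.Injective (ap f V) := by
    intro V hV
    rw [injective_iff_map_eq_zero]
    intro s hs
    obtain ⟨r, rfl⟩ := (ooE V).surjective s
    rw [hf', LinearEquiv.map_eq_zero_iff, mul_comm] at hs
    rw [hV r hs, map_zero]
  have hm : Mono f := mono_of_inj₂ (d := d) f hcx hcx (inj _ hyU) (inj _ hyW)
  have hSE := cokS_shortExact f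
  have := hSE.mono_f
  let π : OO X ⟶ cokernel f := cokernel.π f
  have hπf : ∀ (V : X.Opens) (s : Γ(OO X, V)), ap π V (ap f V s) = 0 := by
    intro V s
    rw [← ap_comp, cokernel.condition]
    rfl
  have hq : ∀ (V : X.Opens) (r : Γ(X, V)),
      ap π V (ooE V r) = r • rs (cokernel f) (le_top : V ≤ ⊤) (ap π ⊤ (ooE ⊤ 1)) := by
    intro V r
    rw [← ap_rs, rs_one, ← map_smul, ← map_smul, smul_eq_mul, mul_one]
  refine ⟨cokernel f, ap π ⊤ (ooE ⊤ 1), hS.two₃ _ hSE hO hO, CX.coker hSE hcx hcx, ?_, ?_, ?_, ?_⟩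
  · intro s
    obtain ⟨m, hm⟩ := surjU (d := d) hSE hcx s
    obtain ⟨r, rfl⟩ := (ooE d.U).surjective m
    refine ⟨r, ?_⟩
    rw [← hq]
    exact hm.symm
  · intro b hb
    rw [← hq] at hb
    obtain ⟨m, hm⟩ := ap_exact _ hSE.exact d.U (ooE d.U b) hb
    obtain ⟨r, rfl⟩ := (ooE d.U).surjective m
    have h3 : ooE d.U (r * ro (le_top : d.U ≤ ⊤) y) = ooE d.U b := (hf' d.U r).symm.trans hm
    have h4 := (ooE d.U).injective h3
    exact ⟨r, by rw [← h4, mul_comm]⟩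
  · intro V s
    apply ext_rs_of_mem
    intro x hx
    obtain ⟨V', hV', hx', t, ht⟩ := locally_surj_of_epi π V s x hx
    refine ⟨V', hV', hx', ?_⟩
    obtain ⟨r, rfl⟩ := (ooE V').surjective t
    rw [rs_smul, ro_ro, ← ht, ← map_smul, ← map_smul, smul_eq_mul, mul_comm, ← hf', hπf, map_zero]
  · intro M m hm
    obtain ⟨g, hg⟩ := exists_hom_oo m
    have h0 : f ≫ g = 0 := by
      apply ap_ext
      intro V s
      obtain ⟨r, rfl⟩ := (ooE V).surjective s
      rw [ap_comp, hf', hg, mul_smul, ← rs_smul, hm, map_zero, smul_zero]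
      rfl
    refine ⟨cokernel.desc f g h0, ?_⟩
    rw [← ap_comp]
    have h1 : π ≫ cokernel.desc f g h0 = g := cokernel.π_desc f g h0
    rw [h1, hg, one_smul, rs_refl]

/-- a generator for the modules annihilated by `y` -/
def Gen (d : Dat X) (S : X.Modules → Prop) (y : Γ(X, d.U)) : Prop :=
  ∃ (E : X.Modules) (e : Γ(E, d.U)), ZZ d E ∧ S E ∧
    (∀ s : Γ(E, d.U), ∃ b : Γ(X, d.U), s = b • e) ∧
    (∀ b : Γ(X, d.U), b • e = 0 → y ∣ b) ∧ y • e = 0 ∧
    (∀ M : X.Modules, ZZ d M → ∀ m : Γ(M, d.U), y • m = 0 → ∃ ψ : E ⟶ M, ap ψ d.U e = m)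

lemma isUnit_pW (d : Dat X) : IsUnit (ro (le_top : d.W ≤ ⊤) d.p) := isUnit_ro_basicOpen d.p

lemma isUnit_p (d : Dat X) (V : X.Opens) (hV : V ≤ d.W) : IsUnit (ro (le_top : V ≤ ⊤) d.p) := by
  have h := (isUnit_pW d).map (ro hV)
  rwa [ro_ro] at h

lemma isUnit_x (d : Dat X) (V : X.Opens) (hV : V ≤ d.W) (hU : V ≤ d.U) :
    IsUnit (ro (le_top : V ≤ ⊤) d.x) := by
  have h := isUnit_p d V hV
  have h1 := congrArg (ro hU) d.hp
  rw [ro_ro, map_mul, ro_ro] at h1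
  rw [h1] at h
  exact isUnit_of_mul_isUnit_left h

theorem gen_p (d : Dat X) {S : X.Modules → Prop} (hS : ThickP S) (hO : S (OO X)) :
    Gen d S (ro (le_top : d.U ≤ ⊤) d.p) := by
  obtain ⟨Q, q, hSQ, hcx, hgen, hann, hkill, huni⟩ := exists_quot d d.p d.regU (by
    intro c hc
    exact (isUnit_pW d).mul_right_eq_zero.1 hc) hS hO
  refine ⟨Q, rs Q (le_top : d.U ≤ ⊤) q, ⟨hcx, ?_⟩, hSQ, hgen, hann, hkill _ _, ?_⟩
  · have key : ∀ s : Γ(Q, d.W), s = 0 := by
      intro s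
      have h1 := hkill d.W s
      exact (isUnit_pW d).smul_eq_zero.1 h1
    exact ⟨fun a b => by rw [key a, key b]⟩
  · intro M hM m hm
    obtain ⟨m', rfl⟩ := hM.exists_ext m
    obtain ⟨ψ, hψ⟩ := huni M m' (by
      apply hM.ext_section
      rw [map_zero, rs_smul]
      have h1 := congrArg (rs M (inf_le_right : ⊤ ⊓ d.U ≤ d.U)) hm
      rw [rs_smul, ro_ro, rs_rs, map_zero] at h1
      exact h1)
    exact ⟨ψ, by rw [ap_rs, hψ]⟩

/-- the part of a module over `U` splits off if the module vanishes on the intersection -/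
theorem exists_retr (d : Dat X) (Q : X.Modules)
    (hQ : ∀ V : X.Opens, V ≤ d.U → V ≤ d.W → Subsingleton Γ(Q, V)) :
    ∃ i : jj d.U Q ⟶ Q, i ≫ jjU d.U Q = 𝟙 _ ∧
      ∀ (s : Γ(Q, d.U)), ap i d.U (ap (jjU d.U Q) d.U s) = s := by
  have hex : ∀ (V : X.Opens) (s : Γ(jj d.U Q, V)), ∃ s' : Γ(Q, V),
      rs Q (inf_le_left : V ⊓ d.U ≤ V) s' = jjE d.U Q V s ∧
      rs Q (inf_le_left : V ⊓ d.W ≤ V) s' = 0 := by
    intro V s
    exact exists_glue₂ (M := Q) inf_le_left inf_le_left (cov_inf d V) _ _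
      (@Subsingleton.elim _ (hQ _ (inf_le_left.trans inf_le_right)
        (inf_le_right.trans inf_le_right)) _ _)
  choose g h1 h2 using hex
  have hext : ∀ (V : X.Opens) (s t : Γ(Q, V)),
      rs Q (inf_le_left : V ⊓ d.U ≤ V) s = rs Q (inf_le_left : V ⊓ d.U ≤ V) t →
      rs Q (inf_le_left : V ⊓ d.W ≤ V) s = rs Q (inf_le_left : V ⊓ d.W ≤ V) t → s = t :=
    fun V _ _ => ext_rs₂ (inf_le_left : V ⊓ d.U ≤ V) (inf_le_left : V ⊓ d.W ≤ V)
      (cov_inf d V)
  let i : jj d.U Q ⟶ Q := mkHom _ _ (fun V =>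
    { toFun := g V
      map_add' := fun s t => by
        apply hext
        · rw [map_add, h1, h1, h1, map_add]
        · rw [map_add, h2, h2, h2, add_zero]
      map_smul' := fun r s => by
        apply hext
        · rw [RingHom.id_apply, rs_smul, h1, h1, jjE_smul]
        · rw [RingHom.id_apply, rs_smul, h2, h2, smul_zero] })
    (fun V' V h s => by
      apply hext
      · change rs Q _ (g V' _) = rs Q _ (rs Q h (g V s))
        rw [h1, jjE_rs, rs_rs, ← h1 V s, rs_rs]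
      · change rs Q _ (g V' _) = rs Q _ (rs Q h (g V s))
        rw [h2, rs_rs]
        have h3 := congrArg (rs Q (inf_le_inf_right d.W h)) (h2 V s)
        rw [rs_rs, map_zero] at h3
        exact h3.symm)
  have hi : ∀ V s, ap i V s = g V s := fun V s => rfl
  refine ⟨i, ?_, ?_⟩
  · apply ap_ext
    intro V s
    apply (jjE d.U Q V).injective
    rw [ap_comp, ap_id, jjE_jjU, hi, h1]
  · intro s
    rw [hi]
    apply hext
    · rw [h1, jjE_jjU]
    · exact @Subsingleton.elim _ (hQ _ inf_le_left inf_le_right) _ _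

lemma jj_subsingleton (Q : X.Modules) (U V : X.Opens) (h : Subsingleton Γ(Q, V ⊓ U)) :
    Subsingleton Γ(jj U Q, V) :=
  ⟨fun a b => (jjE U Q V).injective (Subsingleton.elim _ _)⟩

theorem gen_x (d : Dat X) {S : X.Modules → Prop} (hS : ThickP S) (hO : S (OO X)) :
    Gen d S (ro (le_top : d.U ≤ ⊤) d.x) := by
  have regx : ∀ b : Γ(X, d.U), ro (le_top : d.U ≤ ⊤) d.x * b = 0 → b = 0 := by
    intro b hb
    apply d.regU
    rw [d.hp, mul_assoc, mul_comm d.t, ← mul_assoc, hb, zero_mul]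
  obtain ⟨Q, q, hSQ, hcx, hgen, hann, hkill, huni⟩ := exists_quot d d.x regx d.regW hS hO
  have hQ : ∀ V : X.Opens, V ≤ d.U → V ≤ d.W → Subsingleton Γ(Q, V) := by
    intro V hU hW
    have key : ∀ s : Γ(Q, V), s = 0 := fun s =>
      (isUnit_x d V hW hU).smul_eq_zero.1 (hkill V s)
    exact ⟨fun a b => by rw [key a, key b]⟩
  obtain ⟨i, hi, hi'⟩ := exists_retr d Q hQ
  have hiso := isoOn_jjU d.U Q
  refine ⟨jj d.U Q, ap (jjU d.U Q) d.U (rs Q (le_top : d.U ≤ ⊤) q), ⟨⟨hcx.u.of_isoOn hiso, ?_⟩, ?_⟩,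
    hS.retract i _ hi hSQ, ?_, ?_, ?_, ?_⟩
  · apply co_of_subsingleton
    intro V hV
    exact jj_subsingleton Q _ V (hQ _ inf_le_right (inf_le_left.trans hV))
  · exact jj_subsingleton Q _ _ (hQ _ inf_le_right inf_le_left)
  · intro s
    obtain ⟨s', rfl⟩ := (hiso _ le_rfl).2 s
    obtain ⟨b, rfl⟩ := hgen s'
    exact ⟨b, by rw [map_smul]⟩
  · intro b hb
    rw [← map_smul] at hb
    apply hann
    apply (hiso _ le_rfl).1
    rw [hb, map_zero]
  · rw [← map_smul, hkill, map_zero]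
  · intro M hM m hm
    obtain ⟨m', rfl⟩ := hM.exists_ext m
    obtain ⟨ψ, hψ⟩ := huni M m' (by
      apply hM.ext_section
      rw [map_zero, rs_smul]
      have h1 := congrArg (rs M (inf_le_right : ⊤ ⊓ d.U ≤ d.U)) hm
      rw [rs_smul, ro_ro, rs_rs, map_zero] at h1
      exact h1)
    exact ⟨i ≫ ψ, by rw [ap_comp, hi', ap_rs, hψ]⟩

end Pool.Agent.Q37.QA
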