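import Pool.Agent.Q37.QA.Dev2

/-!
The coherent modules which vanish on the second open set belong to the thick category generated by
the structure sheaf.
-/

universe u v

open CategoryTheory Limits Opposite TopologicalSpace AlgebraicGeometry

namespace Pool.Agent.Q37.QA

open Pool.Agent.W506

open scoped ZeroObject

set_option backward.isDefEq.respectTransparency false

variable {X : Scheme.{u}}

lemma ZZ.kerS {d : Dat X} {M N : X.Modules} (φ : M ⟶ N) (hM : ZZ d M) (hN : CX d N) :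
    ZZ d (kernel φ) :=
  (ZZ.ker φ hM hN).iso (kernelFactorThruImage φ)

lemma ap_kernel {M N : X.Modules} (φ : M ⟶ N) (V : X.Opens) (a : Γ(kernel φ, V)) :
    ap φ V (ap (kernel.ι φ) V a) = 0 := by
  rw [← ap_comp, kernel.condition]
  rfl

lemma exists_kernel {M N : X.Modules} (φ : M ⟶ N) (V : X.Opens) (s : Γ(M, V))
    (hs : ap φ V s = 0) : ∃ a : Γ(kernel φ, V), ap (kernel.ι φ) V a = s :=
  ap_exact (Pool.Agent.Q37.QA.kerS φ) (kerS_exact φ) V s hs

/-- factorization through an epimorphism -/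
lemma exists_factor {M N P : X.Modules} (μ : M ⟶ N) [Epi μ] (α : M ⟶ P)
    (h : kernel.ι μ ≫ α = 0) : ∃ ψ : N ⟶ P, μ ≫ ψ = α := by
  have hS := kerS_shortExact μ
  have := hS.epi_g
  exact hS.exact.desc' α h

theorem gen_t (d : Dat X) {S : X.Modules → Prop} (hS : ThickP S) (hO : S (OO X)) :
    Gen d S d.t := by
  obtain ⟨Ep, ep, hZp, hSp, hgenp, hannp, hkillp, hunip⟩ := gen_p d hS hO
  obtain ⟨Ex, ex, hZx, hSx, hgenx, hannx, hkillx, hunix⟩ := gen_x d hS hO
  obtain ⟨q, hq⟩ := hunip Ex hZx ex (by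
    rw [d.hp, mul_comm, mul_smul, hkillx, smul_zero])
  have hsurj : Function.Surjective (ap q d.U) := by
    intro s
    obtain ⟨b, rfl⟩ := hgenx s
    exact ⟨b • ep, by rw [map_smul, hq]⟩
  have hepi : Epi q := hZx.epi q hsurj
  have hZt : ZZ d (kernel q) := ZZ.kerS q hZp hZx.cx
  have hinj := ap_injective (kernel.ι q) d.U
  obtain ⟨et, het⟩ := exists_kernel q d.U (ro (le_top : d.U ≤ ⊤) d.x • ep) (by
    rw [map_smul, hq, hkillx])
  have regx : ∀ b : Γ(X, d.U), ro (le_top : d.U ≤ ⊤) d.x * b = 0 → b = 0 := by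
    intro b hb
    apply d.regU
    rw [d.hp, mul_assoc, mul_comm d.t, ← mul_assoc, hb, zero_mul]
  have hannt : ∀ b : Γ(X, d.U), b • et = 0 → d.t ∣ b := by
    intro b hb
    have h1 := congrArg (ap (kernel.ι q) d.U) hb
    rw [map_smul, het, map_zero, smul_smul] at h1
    obtain ⟨c, hc⟩ := hannp _ h1
    refine ⟨c, ?_⟩
    have h2 : ro (le_top : d.U ≤ ⊤) d.x * (b - d.t * c) = 0 := by
      rw [mul_sub, mul_comm _ b, hc, d.hp]
      ring
    exact sub_eq_zero.1 (regx _ h2)
  have hgent : ∀ s : Γ(kernel q, d.U), ∃ b : Γ(X, d.U), s = b • et := by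
    intro s
    obtain ⟨b, hb⟩ := hgenp (ap (kernel.ι q) d.U s)
    have h1 := ap_kernel q d.U s
    rw [hb, map_smul, hq] at h1
    obtain ⟨c, rfl⟩ := hannx _ h1
    refine ⟨c, ?_⟩
    apply hinj
    rw [hb, map_smul, het, smul_smul, mul_comm]
  have hkillt : d.t • et = 0 := by
    apply hinj
    rw [map_smul, het, smul_smul, mul_comm, ← d.hp, hkillp, map_zero]
  refine ⟨kernel q, et, hZt, hS.two₁ _ (kerS_shortExact q) hSp hSx, hgent, hannt, hkillt, ?_⟩
  intro M hM m hm
  obtain ⟨μ, hμ⟩ := hunip (kernel q) hZt et (by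
    rw [d.hp, mul_smul, hkillt, smul_zero])
  obtain ⟨α, hα⟩ := hunip M hM m (by
    rw [d.hp, mul_smul, hm, smul_zero])
  have hμs : Function.Surjective (ap μ d.U) := by
    intro s
    obtain ⟨b, rfl⟩ := hgent s
    exact ⟨b • ep, by rw [map_smul, hμ]⟩
  have hμe : Epi μ := hZt.epi μ hμs
  have h0 : kernel.ι μ ≫ α = 0 := by
    apply ZZ.hom_ext (ZZ.kerS μ hZp hZt.cx).cx hM
    intro s
    obtain ⟨b, hb⟩ := hgenp (ap (kernel.ι μ) d.U s)
    have h1 := ap_kernel μ d.U s
    rw [hb, map_smul, hμ] at h1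
    obtain ⟨c, rfl⟩ := hannt _ h1
    rw [ap_comp, hb, map_smul, hα, mul_comm, mul_smul, hm, smul_zero]
    rfl
  obtain ⟨ψ, hψ⟩ := exists_factor μ α h0
  refine ⟨ψ, ?_⟩
  rw [← hμ, ← ap_comp, hψ, hα]

/-- sums of copies of a generator -/
theorem Gen.exists_sum {d : Dat X} {S : X.Modules → Prop} (hS : ThickP S) {y : Γ(X, d.U)}
    (hy : Gen d S y) (n : ℕ) : ∃ (P : X.Modules) (e : Fin n → Γ(P, d.U)), ZZ d P ∧ S P ∧
      (∀ s : Γ(P, d.U), ∃ b : Fin n → Γ(X, d.U), s = ∑ i, b i • e i) ∧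
      (∀ b : Fin n → Γ(X, d.U), ∑ i, b i • e i = 0 → ∀ i, y ∣ b i) ∧ (∀ i, y • e i = 0) ∧
      (∀ M : X.Modules, ZZ d M → ∀ m : Fin n → Γ(M, d.U), (∀ i, y • m i = 0) →
        ∃ ψ : P ⟶ M, ∀ i, ap ψ d.U (e i) = m i) := by
  induction n with
  | zero =>
    have hz : IsZero (0 : X.Modules) := isZero_zero _
    have hs : ∀ V, Subsingleton Γ((0 : X.Modules), V) := fun V => subsingleton_of_isZero hz V
    refine ⟨0, fun i => i.elim0, ⟨⟨co_of_subsingleton fun V _ => hs V,
      co_of_subsingleton fun V _ => hs V⟩, hs _⟩, hS.zero _ hz, ?_, ?_, ?_, ?_⟩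
    · intro s
      exact ⟨fun i => i.elim0, @Subsingleton.elim _ (hs _) _ _⟩
    · intro b _ i
      exact i.elim0
    · intro i
      exact i.elim0
    · intro M _ m _
      exact ⟨0, fun i => i.elim0⟩
  | succ n ih =>
    obtain ⟨P, e, hZ, hSP, hgen, hann, hkill, huni⟩ := ih
    obtain ⟨E, e₀, hZ₀, hS₀, hgen₀, hann₀, hkill₀, huni₀⟩ := hy
    let il : E ⟶ E ⊞ P := biprod.inl
    let ir : P ⟶ E ⊞ P := biprod.inr
    have hfl : ∀ s, ap (biprod.fst : E ⊞ P ⟶ E) d.U (ap il d.U s) = s := fun s => by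
      rw [← ap_comp, biprod.inl_fst]; rfl
    have hfr : ∀ s, ap (biprod.fst : E ⊞ P ⟶ E) d.U (ap ir d.U s) = 0 := fun s => by
      rw [← ap_comp, biprod.inr_fst]; rfl
    have hsl : ∀ s, ap (biprod.snd : E ⊞ P ⟶ P) d.U (ap il d.U s) = 0 := fun s => by
      rw [← ap_comp, biprod.inl_snd]; rfl
    have hsr : ∀ s, ap (biprod.snd : E ⊞ P ⟶ P) d.U (ap ir d.U s) = s := fun s => by
      rw [← ap_comp, biprod.inr_snd]; rfl
    refine ⟨E ⊞ P, Fin.cons (ap il d.U e₀) (fun i => ap ir d.U (e i)), hZ₀.biprod hZ,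
      hS.biprod hS₀ hSP, ?_, ?_, ?_, ?_⟩
    · intro s
      obtain ⟨b₀, hb₀⟩ := hgen₀ (ap biprod.fst d.U s)
      obtain ⟨b, hb⟩ := hgen (ap biprod.snd d.U s)
      refine ⟨Fin.cons b₀ b, ?_⟩
      rw [Fin.sum_univ_succ]
      simp only [Fin.cons_zero, Fin.cons_succ]
      rw [biprod_section s, hb₀, hb, map_smul, map_sum]
      simp only [map_smul]
      rfl
    · intro b hb
      rw [Fin.sum_univ_succ] at hb
      simp only [Fin.cons_zero, Fin.cons_succ] at hb
      have h1 := congrArg (ap (biprod.fst : E ⊞ P ⟶ E) d.U) hb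
      have h2 := congrArg (ap (biprod.snd : E ⊞ P ⟶ P) d.U) hb
      simp only [map_add, map_smul, map_sum, hfl, hfr, smul_zero, Finset.sum_const_zero,
        add_zero, map_zero] at h1
      simp only [map_add, map_smul, map_sum, hsl, hsr, smul_zero, zero_add, map_zero] at h2
      intro i
      refine Fin.cases ?_ (fun i => ?_) i
      · exact hann₀ _ h1
      · exact hann _ h2 i
    · intro i
      refine Fin.cases ?_ (fun i => ?_) i
      · simp only [Fin.cons_zero]
        rw [← map_smul, hkill₀, map_zero]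
      · simp only [Fin.cons_succ]
        rw [← map_smul, hkill, map_zero]
    · intro M hM m hm
      obtain ⟨ψ₀, hψ₀⟩ := huni₀ M hM (m 0) (hm 0)
      obtain ⟨ψ, hψ⟩ := huni M hM (fun i => m i.succ) (fun i => hm _)
      refine ⟨biprod.desc ψ₀ ψ, fun i => ?_⟩
      refine Fin.cases ?_ (fun i => ?_) i
      · simp only [Fin.cons_zero]
        rw [← ap_comp, biprod.inl_desc, hψ₀]
      · simp only [Fin.cons_succ]
        rw [← ap_comp, biprod.inr_desc, hψ]

/-- modules annihilated by `y` -/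
theorem Gen.of_killed {d : Dat X} {S : X.Modules → Prop} (hS : ThickP S) {y : Γ(X, d.U)}
    (hy : Gen d S y) (hdom : IsDomain (Γ(X, d.U) ⧸ Ideal.span {y}))
    (hpir : IsPrincipalIdealRing (Γ(X, d.U) ⧸ Ideal.span {y})) (M : X.Modules) (hM : ZZ d M)
    (hkM : ∀ m : Γ(M, d.U), y • m = 0) : S M := by
  obtain ⟨n, g, hg⟩ := @Module.Finite.exists_fin _ _ _ _ _ hM.cx.u.fin
  obtain ⟨P, e, hZ, hSP, hgen, hann, hkill, huni⟩ := hy.exists_sum hS n
  obtain ⟨φ, hφ⟩ := huni M hM g (fun i => hkM _)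
  have hsurj : Function.Surjective (ap φ d.U) := by
    rw [← LinearMap.range_eq_top, eq_top_iff, ← hg, Submodule.span_le]
    rintro _ ⟨i, rfl⟩
    exact ⟨e i, hφ i⟩
  have hepi : Epi φ := hM.epi φ hsurj
  have hZK : ZZ d (kernel φ) := ZZ.kerS φ hZ hM.cx
  have hinj := ap_injective (kernel.ι φ) d.U
  have hyP : ∀ s : Γ(P, d.U), y • s = 0 := by
    intro s
    obtain ⟨b, rfl⟩ := hgen s
    rw [Finset.smul_sum]
    exact Finset.sum_eq_zero (fun i _ => by rw [smul_comm, hkill, smul_zero])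
  have hyK : ∀ s : Γ(kernel φ, d.U), y • s = 0 := by
    intro s
    apply hinj
    rw [map_smul, hyP, map_zero]
  have := hZK.cx.u.fin
  obtain ⟨a, k, hk1, hk2⟩ := exists_free_gens (N := Γ(kernel φ, d.U)) y hdom hpir hyK (by
    intro b s hs
    by_cases hb : y ∣ b
    · exact Or.inl hb
    right
    have h1 := congrArg (ap (kernel.ι φ) d.U) hs
    rw [map_smul, map_zero] at h1
    obtain ⟨c, hc⟩ := hgen (ap (kernel.ι φ) d.U s)
    rw [hc, Finset.smul_sum] at h1
    simp only [smul_smul] at h1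
    have h2 := hann _ h1
    have h3 : ∀ i, y ∣ c i := by
      intro i
      have h4 := h2 i
      rw [← Ideal.mem_span_singleton, ← Ideal.Quotient.eq_zero_iff_mem, map_mul] at h4
      rcases mul_eq_zero.1 h4 with h5 | h5
      · rw [Ideal.Quotient.eq_zero_iff_mem, Ideal.mem_span_singleton] at h5
        exact absurd h5 hb
      · rwa [Ideal.Quotient.eq_zero_iff_mem, Ideal.mem_span_singleton] at h5
    apply hinj
    rw [hc, map_zero]
    refine Finset.sum_eq_zero (fun i _ => ?_)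
    obtain ⟨z, hz⟩ := h3 i
    rw [hz, mul_comm, mul_smul, hkill, smul_zero])
  obtain ⟨P', e', hZ', hSP', hgen', hann', hkill', huni'⟩ := hy.exists_sum hS a
  obtain ⟨ψ, hψ⟩ := huni' (kernel φ) hZK k (fun i => hyK _)
  have hbij : Function.Bijective (ap ψ d.U) := by
    constructor
    · rw [injective_iff_map_eq_zero]
      intro s hs
      obtain ⟨b, rfl⟩ := hgen' s
      rw [map_sum] at hs
      simp only [map_smul, hψ] at hs
      refine Finset.sum_eq_zero (fun i _ => ?_)
      obtain ⟨z, hz⟩ := hk2 b hs i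
      rw [hz, mul_comm, mul_smul, hkill', smul_zero]
    · intro s
      obtain ⟨c, rfl⟩ := hk1 s
      refine ⟨∑ i, c i • e' i, ?_⟩
      rw [map_sum]
      exact Finset.sum_congr rfl (fun i _ => by rw [map_smul, hψ])
  have hiso := ZZ.isIso hZ' hZK ψ hbij
  exact hS.two₃ _ (kerS_shortExact φ) (hS.iso (asIso ψ) hSP') hSP

/-- multiplication by a function on the first open set -/
lemma ZZ.exists_mul {d : Dat X} {M : X.Modules} (hM : ZZ d M) (y : Γ(X, d.U)) :
    ∃ τ : M ⟶ M, ∀ m : Γ(M, d.U), ap τ d.U m = y • m := by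
  have hiso : IsIso (jjU d.U M) := by
    refine isIso_of_isoOn₂ _ d.cov (isoOn_jjU d.U M) (isoOn_of_subsingleton _ hM.vanish ?_)
    intro V hV
    exact jj_subsingleton M _ V (hM.vanish _ (inf_le_left.trans hV))
  refine ⟨jjU d.U M ≫ mulj d.U y M ≫ inv (jjU d.U M), fun m => ?_⟩
  apply (ap_bijective_of_isIso (jjU d.U M) d.U).1
  rw [← ap_comp]
  simp only [Category.assoc, IsIso.inv_hom_id, Category.comp_id]
  apply (jjE d.U M d.U).injective
  rw [ap_comp, jjE_mulj, jjE_jjU, jjE_jjU, rs_smul]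

lemma isZero_of_sub {d : Dat X} {M : X.Modules} (hM : ZZ d M) (h : ∀ m : Γ(M, d.U), m = 0) :
    IsZero M := by
  rw [IsZero.iff_id_eq_zero]
  apply ZZ.hom_ext hM.cx hM
  intro m
  rw [h m, map_zero, map_zero]

theorem devissage_list {d : Dat X} {S : X.Modules → Prop} (hS : ThickP S) (l : List Γ(X, d.U))
    (hl : ∀ y ∈ l, ∀ M : X.Modules, ZZ d M → (∀ m : Γ(M, d.U), y • m = 0) → S M) :
    ∀ M : X.Modules, ZZ d M → (∀ m : Γ(M, d.U), l.prod • m = 0) → S M := by
  induction l with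
  | nil =>
    intro M hM h
    exact hS.zero _ (isZero_of_sub hM (fun m => by
      have := h m
      rwa [List.prod_nil, one_smul] at this))
  | cons y l ih =>
    intro M hM h
    obtain ⟨τ, hτ⟩ := hM.exists_mul y
    have hK : S (kernel (factorThruImage τ)) := by
      refine hl y (by simp) _ (ZZ.ker τ hM hM.cx) ?_
      intro s
      apply ap_injective (kernel.ι (factorThruImage τ)) d.U
      rw [map_smul, ← hτ, map_zero]
      have h1 : kernel.ι (factorThruImage τ) ≫ τ = 0 := by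
        calc kernel.ι (factorThruImage τ) ≫ τ
            = kernel.ι (factorThruImage τ) ≫ factorThruImage τ ≫ Limits.image.ι τ := by
              rw [Limits.image.fac]
          _ = 0 := by rw [← Category.assoc, kernel.condition, zero_comp]
      rw [← ap_comp, h1]
      rfl
    have hI : S (Limits.image τ) := by
      refine ih (fun z hz => hl z (by simp [hz])) _ (ZZ.im τ hM hM.cx) ?_
      intro s
      obtain ⟨m, rfl⟩ := surjU (d := d) (imS₁_shortExact τ) (CX.im₁ τ hM.cx hM.cx) s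
      have key : ap (factorThruImage τ) d.U (l.prod • m) = 0 := by
        apply ap_injective (Limits.image.ι τ) d.U
        rw [← ap_comp, Limits.image.fac, hτ, smul_smul, map_zero]
        have := h m
        rwa [List.prod_cons] at this
      exact (map_smul (ap (factorThruImage τ) d.U) l.prod m).symm.trans key
    exact hS.two₂ _ (imS₁_shortExact τ) hK hI

/-- a power of the function annihilates the module -/
lemma ZZ.exists_pow {d : Dat X} {M : X.Modules} (hM : ZZ d M) :
    ∃ n : ℕ, ∀ m : Γ(M, d.U), ro (le_top : d.U ≤ ⊤) d.p ^ n • m = 0 := by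
  have h1 : ∀ m : Γ(M, d.U), ∃ k : ℕ, ro (le_top : d.U ≤ ⊤) d.p ^ k • m = 0 := by
    intro m
    apply hM.cx.u.qc.uniq d.U d.hU le_rfl
    have := hM.vanish (X.basicOpen (ro (le_top : d.U ≤ ⊤) d.p)) (by
      rw [basicOpen_ro]
      exact inf_le_right)
    exact Subsingleton.elim _ _
  choose k hk using h1
  obtain ⟨n, g, hg⟩ := @Module.Finite.exists_fin _ _ _ _ _ hM.cx.u.fin
  refine ⟨∑ i, k (g i), fun m => ?_⟩
  have hm : m ∈ Submodule.span Γ(X, d.U) (Set.range g) := by rw [hg]; trivial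
  induction hm using Submodule.span_induction with
  | mem x hx =>
    obtain ⟨i, rfl⟩ := hx
    rw [← Finset.sum_erase_add _ _ (Finset.mem_univ i), pow_add, mul_smul, hk, smul_zero]
  | zero => rw [smul_zero]
  | add x y _ _ hx hy => rw [smul_add, hx, hy, add_zero]
  | smul a x _ hx => rw [smul_comm, hx, smul_zero]

/-- Coherent modules which vanish on the second open set. -/
theorem ZZ.mem {d : Dat X} {S : X.Modules → Prop} (hS : ThickP S) (hO : S (OO X))
    {M : X.Modules} (hM : ZZ d M) : S M := by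
  obtain ⟨n, hn⟩ := hM.exists_pow
  refine devissage_list hS (List.replicate n (ro (le_top : d.U ≤ ⊤) d.x) ++
    List.replicate n d.t) ?_ M hM ?_
  · intro y hy
    rw [List.mem_append, List.mem_replicate, List.mem_replicate] at hy
    rcases hy with ⟨-, rfl⟩ | ⟨-, rfl⟩
    · exact (gen_x d hS hO).of_killed hS d.domx d.pidx
    · exact (gen_t d hS hO).of_killed hS d.domt d.pidt
  · intro m
    rw [List.prod_append, List.prod_replicate, List.prod_replicate, ← mul_pow, ← d.hp]
    exact hn m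

end Pool.Agent.Q37.QA
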