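import Pool.Agent.Q37.QA.Dev3

/-!
All coherent modules belong to the thick category generated by the structure sheaf.
-/

universe u v

open CategoryTheory Limits Opposite TopologicalSpace AlgebraicGeometry

namespace Pool.Agent.Q37.QA

open Pool.Agent.W506

open scoped ZeroObject

set_option backward.isDefEq.respectTransparency false

variable {X : Scheme.{u}}

/-- sections over the basic open set extend after multiplication by a power of the function -/
lemma CX.exists_extend {d : Dat X} {M : X.Modules} (hM : CX d M) (s : Γ(M, d.W)) :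
    ∃ (k : ℕ) (s' : Γ(M, ⊤)), rs M (le_top : d.W ≤ ⊤) s' =
      ro (le_top : d.W ≤ ⊤) d.p ^ k • s := by
  have hD : X.basicOpen (ro (le_top : d.U ≤ ⊤) d.p) = d.U ⊓ d.W := basicOpen_ro _ _
  have key : ∀ (D : X.Opens) (_ : X.basicOpen (ro (le_top : d.U ≤ ⊤) d.p) = D) (hDU : D ≤ d.U)
      (s : Γ(M, D)), ∃ (k : ℕ) (t : Γ(M, d.U)), rs M hDU t =
        ro (le_top : D ≤ ⊤) d.p ^ k • s := by
    rintro D rfl hDU s
    obtain ⟨k, t, ht⟩ := hM.u.qc.ext d.U d.hU le_rfl _ s
    exact ⟨k, t, by rw [ht, ro_ro]⟩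
  obtain ⟨k, t, ht⟩ := key _ hD inf_le_left (rs M (inf_le_right : d.U ⊓ d.W ≤ d.W) s)
  obtain ⟨r, -, hr⟩ := exists_glue₂ (M := M) (le_top : d.U ≤ ⊤) (le_top : d.W ≤ ⊤) d.cov t
    (ro (le_top : d.W ≤ ⊤) d.p ^ k • s) (by
      rw [ht, rs_smul, map_pow, ro_ro])
  exact ⟨k, r, hr⟩

/-- free modules -/
lemma exists_free {S : X.Modules → Prop} (hS : ThickP S) (hO : S (OO X)) (n : ℕ) :
    ∃ (Q : X.Modules) (e : Fin n → Γ(Q, ⊤)), S Q ∧ IsBasisOn e := by
  induction n with
  | zero =>
    have hz : IsZero (0 : X.Modules) := isZero_zero _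
    refine ⟨0, fun i => i.elim0, hS.zero _ hz, ?_⟩
    intro V hV
    constructor
    · intro a b _
      funext i
      exact i.elim0
    · intro b
      exact ⟨fun i => i.elim0, @Subsingleton.elim _ (subsingleton_of_isZero hz V) _ _⟩
  | succ n ih =>
    obtain ⟨Q, e, hQ, he⟩ := ih
    exact ⟨_, _, hS.biprod hQ hO, isBasisOn_biprod he isBasisOn_oo⟩

lemma localOn_top (N : X.Modules) : LocalOn ⊤ N := fun V =>
  rs_bijective _ (le_inf le_rfl le_top)

lemma rs_basis_span {d : Dat X} {M Q : X.Modules} {n : ℕ} {e : Fin n → Γ(Q, ⊤)}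
    (φ : Q ⟶ M) (g : Fin n → Γ(M, d.W)) (k : Fin n → ℕ)
    (h : ∀ i, rs M (le_top : d.W ≤ ⊤) (ap φ ⊤ (e i)) = ro (le_top : d.W ≤ ⊤) d.p ^ k i • g i)
    (a : Fin n → Γ(X, d.W)) : ap φ d.W (comb e (le_top : d.W ≤ ⊤) a) =
      ∑ i, (a i * ro (le_top : d.W ≤ ⊤) d.p ^ k i) • g i := by
  rw [comb, map_sum]
  exact Finset.sum_congr rfl (fun i _ => by rw [map_smul, ap_rs, h, smul_smul])

/-- modules whose sections over the second open set form a free module -/
theorem CX.mem_of_free {d : Dat X} {S : X.Modules → Prop} (hS : ThickP S) (hO : S (OO X))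
    {M : X.Modules} (hM : CX d M) {n : ℕ} (b : Module.Basis (Fin n) Γ(X, d.W) Γ(M, d.W)) :
    S M := by
  obtain ⟨Q, e, hQ, he⟩ := exists_free hS hO n
  choose k s' hs' using fun i => hM.exists_extend (b i)
  obtain ⟨φ, hφ⟩ := exists_hom_of_basis he (localOn_top M) s'
  have hQc : CX d Q := cx_of_basis he
  have hu := isUnit_pW d
  have hform := rs_basis_span (d := d) φ b k (fun i => by rw [hφ, hs'])
  have hinj : Function.Injective (ap φ d.W) := by
    rw [injective_iff_map_eq_zero]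
    intro s hs
    obtain ⟨a, rfl⟩ := (he d.W le_top).2 s
    rw [hform] at hs
    have h1 := Fintype.linearIndependent_iff.1 b.linearIndependent _ hs
    have h2 : a = 0 := by
      funext i
      exact (hu.pow (k i)).mul_left_eq_zero.1 (h1 i)
    rw [h2, comb_zero]
  have hsurj : Function.Surjective (ap φ d.W) := by
    intro m
    obtain ⟨v, hv⟩ := hu.exists_left_inv
    refine ⟨comb e (le_top : d.W ≤ ⊤) (fun i => b.repr m i * v ^ k i), ?_⟩
    rw [hform]
    conv_rhs => rw [← b.sum_repr m]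
    refine Finset.sum_congr rfl (fun i _ => ?_)
    rw [mul_assoc, ← mul_pow, hv, one_pow, mul_one]
  exact hS.ext_of_map φ hQ ((ZZ.of_inj φ hQc hM hinj).mem hS hO)
    ((ZZ.of_surj φ hQc hM hsurj).mem hS hO)

/-- All coherent modules. -/
theorem CX.mem {d : Dat X} {S : X.Modules → Prop} (hS : ThickP S) (hO : S (OO X))
    {M : X.Modules} (hM : CX d M) : S M := by
  have := d.pidW
  have := d.domW
  obtain ⟨n, g, hg⟩ := @Module.Finite.exists_fin _ _ _ _ _ hM.w.fin
  obtain ⟨Q, e, hQ, he⟩ := exists_free hS hO n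
  choose k s' hs' using fun i => hM.exists_extend (g i)
  obtain ⟨φ, hφ⟩ := exists_hom_of_basis he (localOn_top M) s'
  have hQc : CX d Q := cx_of_basis he
  have hu := isUnit_pW d
  have hform := rs_basis_span (d := d) φ g k (fun i => by rw [hφ, hs'])
  have hsurj : Function.Surjective (ap φ d.W) := by
    rw [← LinearMap.range_eq_top, eq_top_iff, ← hg, Submodule.span_le]
    rintro _ ⟨i, rfl⟩
    obtain ⟨v, hv⟩ := hu.exists_left_inv
    refine ⟨comb e (le_top : d.W ≤ ⊤) (fun j => if j = i then v ^ k i else 0), ?_⟩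
    rw [hform, Finset.sum_eq_single i]
    · rw [if_pos rfl, ← mul_pow, hv, one_pow, one_smul]
    · intro j _ hj
      rw [if_neg hj, zero_mul, zero_smul]
    · intro h
      exact absurd (Finset.mem_univ i) h
  have hKc : CX d (kernel φ) := (CX.im₁ φ hQc hM).iso (kernelFactorThruImage φ)
  have hK : S (kernel φ) := by
    have h1 : Module.IsTorsionFree Γ(X, d.W) Γ(Q, d.W) := by
      have h2 := (he.mono (le_top : d.W ≤ ⊤)).equiv (le_rfl : d.W ≤ d.W)
      exact Function.Injective.moduleIsTorsionFree h2.symm h2.symm.injective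
        (fun r m => map_smul _ _ _)
    have h3 : Module.IsTorsionFree Γ(X, d.W) Γ(kernel φ, d.W) :=
      Function.Injective.moduleIsTorsionFree (ap (kernel.ι φ) d.W)
        (ap_injective (kernel.ι φ) d.W) (fun r m => map_smul _ _ _)
    have h4 := hKc.w.fin
    obtain ⟨m, b⟩ := Module.basisOfFiniteTypeTorsionFree' (R := Γ(X, d.W))
      (M := Γ(kernel φ, d.W))
    exact hKc.mem_of_free hS hO b
  exact hS.ext_of_map φ hQ (hS.iso (kernelFactorThruImage φ).symm hK)
    ((ZZ.of_surj φ hQc hM hsurj).mem hS hO)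

end Pool.Agent.Q37.QA
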