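import Pool.Agent.Q37.QA.Perf
import Pool.Agent.Q37.QA.Dev4

/-!
The structure sheaf generates the perfect complexes.
-/

universe u v

open CategoryTheory Limits Opposite TopologicalSpace AlgebraicGeometry

namespace Pool.Agent.Q37.QA

open Pool.Agent.W506 Pool.Agent.W456

set_option backward.isDefEq.respectTransparency false

attribute [local instance] HasDerivedCategory.standard Abelian.hasFiniteBiproducts

variable {X : Scheme.{u}}

/-- The thick subcategory of the derived category generated by the structure sheaf. -/
def thickO (X : Scheme.{u}) : ObjectProperty (DerivedCategory X.Modules) :=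
  (ObjectProperty.singleton (unitD X)).triangEnvelope

instance : (thickO X).IsTriangulated :=
  inferInstanceAs (ObjectProperty.singleton (unitD X)).triangEnvelope.IsTriangulated

instance : (thickO X).IsStableUnderRetracts :=
  inferInstanceAs (ObjectProperty.singleton (unitD X)).triangEnvelope.IsStableUnderRetracts

lemma thickO_unit : thickO X (unitD X) :=
  ObjectProperty.le_triangEnvelope _ _ (by simp)

theorem perfect_le_thickO [IsLocallyNoetherian X] [CompactSpace X] (d : Dat X) :
    isPerfect X ≤ thickO X := by
  intro E hE
  refine mem_of_homology (thickO X) E (perfect_bounded hE) (fun i => ?_)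
  have hS := thickP_of_triangulated (thickO X)
  have hlc := perfect_lc hE i
  have hcx : CX d (Hh i E) := ⟨(hlc.mono le_top).co d.hU, (hlc.mono le_top).co d.hW⟩
  exact hcx.mem hS thickO_unit

end Pool.Agent.Q37.QA
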