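import Pool.Agent.Q37.QA.Geo7
import Pool.Agent.Q37.QA.Main1

/-!
A separated scheme which is not quasi-affine and whose perfect complexes are generated by the
structure sheaf.
-/

universe u

open CategoryTheory Limits AlgebraicGeometry Polynomial Opposite

namespace Pool.Agent.Q37.QA

open Pool.Agent.W456

set_option backward.isDefEq.respectTransparency false

attribute [local instance] HasDerivedCategory.standard Abelian.hasFiniteBiproducts

section

variable (k : Type u) [Field k]

instance : Fact (Prime (PowerSeries.X : PowerSeries k)) := ⟨PowerSeries.X_prime⟩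

/-- the blow-up of the affine line over `k[[π]]` at the origin of the closed fibre, minus the
closed point of the exceptional curve on the strict transform of the closed fibre -/
noncomputable abbrev Ex : Scheme.{u} :=
  XX (PowerSeries k) PowerSeries.X (LaurentSeries k)
    (Localization.Away (X : (LaurentSeries k)[X]))

lemma isField_kk : IsField (kk (PowerSeries k) PowerSeries.X) := by
  rw [← Ideal.Quotient.maximal_ideal_iff_isField_quotient,
    ← PowerSeries.maximalIdeal_eq_span_X]
  exact IsLocalRing.maximalIdeal.isMaximal _

theorem exists_counterexample :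
    ∃ (X : Scheme.{u}) (_ : X ⟶ Spec (.of k)), X.IsSeparated ∧ IsNoetherian X ∧ IsIntegral X ∧
      ¬ X.IsQuasiAffine ∧ isPerfect X ≤ thickO X :=
  ⟨Ex k, ff _ _ _ _ ≫ Spec.map (CommRingCat.ofHom (algebraMap k (PowerSeries k)[X])),
    inferInstance, inferInstance, inferInstance, not_quasiAffine _ _ _ _,
    perfect_le_thickO (datX _ _ _ _ (isField_kk k))⟩

end

end Pool.Agent.Q37.QA
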