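import Mathlib

/-!
Gluing two schemes along an open subscheme.
-/

universe u

open CategoryTheory Limits AlgebraicGeometry

namespace Pool.Agent.Q37.QA

set_option backward.isDefEq.respectTransparency false

section glue

variable {V Y Z : Scheme.{u}} (f : V ⟶ Y) (g : V ⟶ Z) [IsOpenImmersion f] [IsOpenImmersion g]

/-- the gluing diagram -/
abbrev SP : WidePushoutShape WalkingPair ⥤ Scheme.{u} := span f g

instance span_map_open {i j : WidePushoutShape WalkingPair} (h : i ⟶ j) :
    IsOpenImmersion ((SP f g).map h) := by
  obtain _ | j := h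
  · have : (SP f g).map (WidePushoutShape.Hom.id i) = 𝟙 _ := (SP f g).map_id i
    rw [this]
    infer_instance
  · cases j with
    | left => exact inferInstanceAs (IsOpenImmersion f)
    | right => exact inferInstanceAs (IsOpenImmersion g)

instance hasPushout_open : HasPushout f g :=
  inferInstanceAs (HasColimit (SP f g))

instance inl_open : IsOpenImmersion (pushout.inl f g) :=
  inferInstanceAs (IsOpenImmersion (colimit.ι (SP f g) (some .left)))

instance inr_open : IsOpenImmersion (pushout.inr f g) :=
  inferInstanceAs (IsOpenImmersion (colimit.ι (SP f g) (some .right)))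

lemma glue_cover (x : (pushout f g : Scheme.{u})) :
    (∃ y, pushout.inl f g y = x) ∨ (∃ z, pushout.inr f g z = x) := by
  obtain ⟨i, xi, h⟩ := Scheme.IsLocallyDirected.ι_jointly_surjective (SP f g) x
  match i with
  | none =>
    left
    refine ⟨f xi, ?_⟩
    rw [← h, ← Scheme.Hom.comp_apply]
    have := colimit.w (span f g) WalkingSpan.Hom.fst
    exact congr($this xi)
  | some .left => exact Or.inl ⟨xi, h⟩
  | some .right => exact Or.inr ⟨xi, h⟩

lemma hom_aux (k : WidePushoutShape WalkingPair) (a : k ⟶ some .left) (b : k ⟶ some .right) :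
    k = none := by
  cases k with
  | none => rfl
  | some k =>
    cases k with
    | left => nomatch b
    | right => nomatch a

lemma glue_eq {y : Y} {z : Z} (h : pushout.inl f g y = pushout.inr f g z) :
    ∃ v, f v = y ∧ g v = z := by
  obtain ⟨k, fi, fj, x, h1, h2⟩ := (Scheme.IsLocallyDirected.ι_eq_ι_iff
    (SP f g) (i := some .left) (j := some .right) (xi := y) (xj := z)).1 h
  obtain rfl := hom_aux k fi fj
  have e1 : fi = WidePushoutShape.Hom.init WalkingPair.left := Subsingleton.elim _ _
  have e2 : fj = WidePushoutShape.Hom.init WalkingPair.right := Subsingleton.elim _ _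
  subst e1 e2
  exact ⟨x, h1, h2⟩

end glue

end Pool.Agent.Q37.QA
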