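import Mathlib

/-!
A criterion for separatedness in terms of an affine open cover.
-/

universe u

open CategoryTheory Limits AlgebraicGeometry Scheme pullback

namespace Pool.Agent.Q37.QA

set_option backward.isDefEq.respectTransparency false

lemma closed_of_surj {T P Y Z : Scheme.{u}} [IsAffine T] [IsAffine P] (h : T ⟶ P) (a : P ⟶ Y)
    (b : P ⟶ Z) (a' : T ⟶ Y) (b' : T ⟶ Z) (ha : h ≫ a = a') (hb : h ≫ b = b')
    (H : ∀ s : Γ(T, ⊤), ∃ (y : Γ(Y, ⊤)) (z : Γ(Z, ⊤)),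
      s = a'.appTop y * b'.appTop z) : IsClosedImmersion h := by
  subst ha hb
  apply IsClosedImmersion.of_surjective_of_isAffine
  intro s
  obtain ⟨y, z, rfl⟩ := H s
  refine ⟨a.appTop y * b.appTop z, ?_⟩
  simp only [map_mul, Scheme.Hom.comp_appTop]
  rfl

lemma sep_of_cover {X S : Scheme.{u}} (f : X ⟶ S) [IsAffine S] (𝒰 : X.OpenCover)
    [∀ i, IsAffine (𝒰.X i)]
    (H1 : ∀ i j, IsAffine (pullback (𝒰.f i) (𝒰.f j)))
    (H : ∀ i j, ∀ s : Γ(pullback (𝒰.f i) (𝒰.f j), ⊤), ∃ (a : Γ(𝒰.X i, ⊤)) (b : Γ(𝒰.X j, ⊤)),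
      s = (pullback.fst (𝒰.f i) (𝒰.f j)).appTop a * (pullback.snd (𝒰.f i) (𝒰.f j)).appTop b) :
    IsSeparated f := by
  refine ⟨IsZariskiLocalAtTarget.of_openCover (Pullback.openCoverOfLeftRight 𝒰 𝒰 _ _) ?_⟩
  intro ⟨i, j⟩
  dsimp [Scheme, Cover.pullbackHom]
  refine (MorphismProperty.cancel_left_of_respectsIso (P := @IsClosedImmersion)
    (f := (pullbackDiagonalMapIdIso ..).inv) _).mp ?_
  have := H1 i j
  have : IsAffine ((Pullback.openCoverOfLeftRight 𝒰 𝒰 f f).X (i, j)) :=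
    inferInstanceAs (IsAffine (pullback (𝒰.f i ≫ f) (𝒰.f j ≫ f)))
  refine closed_of_surj _ (pullback.fst _ _) (pullback.snd _ _) _ _ ?_ ?_ (H i j)
  · rw [Category.assoc]
    exact pullbackDiagonalMapIdIso_inv_snd_fst ..
  · rw [Category.assoc]
    exact pullbackDiagonalMapIdIso_inv_snd_snd ..

end Pool.Agent.Q37.QA
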