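import Pool.Agent.Q37.QA.Alg3
import Pool.Agent.Q37.QA.Geo1
import Pool.Agent.Q37.QA.Geo2

/-!
The blow-up of the affine line over a discrete valuation ring at a closed point, minus a closed
point.
-/

universe u

open CategoryTheory Limits AlgebraicGeometry Polynomial

namespace Pool.Agent.Q37.QA

set_option backward.isDefEq.respectTransparency false

noncomputable section

/-- the second open immersion -/
def fC (K : Type u) [Field K] (L : Type u) [CommRing L] [Algebra K[X] L] :
    Spec (.of L) ⟶ Spec (.of K[X]) := Spec.map (CommRingCat.ofHom (algebraMap K[X] L))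

variable (R : Type u) [CommRing R] [IsDomain R] (p : R)
  (K : Type u) [Field K] [Algebra R K]
  (L : Type u) [CommRing L] [Algebra K[X] L] [IsLocalization.Away (X : K[X]) L]

/-- the first open immersion -/
def fB : Spec (.of L) ⟶ Spec (.of (BB R p)) := Spec.map (CommRingCat.ofHom (beta K L p))

instance fB_open [Fact (Prime p)] [IsLocalization.Away p K] : IsOpenImmersion (fB R p K L) := by
  let _ := (beta K L p).toAlgebra
  have : IsLocalization.Away (bR R p p) L := isLocalization_beta (Fact.out : Prime p) K L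
  exact IsOpenImmersion.of_isLocalization (bR R p p)

instance fC_open : IsOpenImmersion (fC K L) := IsOpenImmersion.of_isLocalization (X : K[X])

variable [Fact (Prime p)] [IsLocalization.Away p K]

/-- the scheme -/
def XX : Scheme.{u} := pushout (fB R p K L) (fC K L)

/-- the first chart -/
def uB : Spec (.of (BB R p)) ⟶ XX R p K L := pushout.inl _ _

/-- the second chart -/
def uC : Spec (.of K[X]) ⟶ XX R p K L := pushout.inr _ _

instance : IsOpenImmersion (uB R p K L) := inl_open (fB R p K L) (fC K L)

instance : IsOpenImmersion (uC R p K L) := inr_open (fB R p K L) (fC K L)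

lemma cond : fB R p K L ≫ uB R p K L = fC K L ≫ uC R p K L := pushout.condition

lemma XX_cover (x : XX R p K L) : (∃ y, uB R p K L y = x) ∨ (∃ z, uC R p K L z = x) :=
  glue_cover (fB R p K L) (fC K L) x

lemma XX_eq {y : Spec (.of (BB R p))} {z : Spec (.of K[X])} (h : uB R p K L y = uC R p K L z) :
    ∃ v, fB R p K L v = y ∧ fC K L v = z := glue_eq (fB R p K L) (fC K L) h

/-- the map to the affine line -/
def ff : XX R p K L ⟶ Spec (.of R[X]) :=
  pushout.desc (Spec.map (CommRingCat.ofHom (bA R p)))
    (Spec.map (CommRingCat.ofHom (mapRingHom (algebraMap R K)))) (by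
      rw [fB, fC, ← Spec.map_comp, ← Spec.map_comp, ← CommRingCat.ofHom_comp,
        ← CommRingCat.ofHom_comp]
      congr 2
      refine RingHom.ext fun a => ?_
      exact beta_bA K L a)

lemma uB_ff : uB R p K L ≫ ff R p K L = Spec.map (CommRingCat.ofHom (bA R p)) :=
  pushout.inl_desc _ _ _

lemma uC_ff : uC R p K L ≫ ff R p K L =
    Spec.map (CommRingCat.ofHom (mapRingHom (algebraMap R K))) :=
  pushout.inr_desc _ _ _

/-- the open cover -/
def cv : (XX R p K L).OpenCover where
  I₀ := Bool
  X b := match b with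
    | true => Spec (.of (BB R p))
    | false => Spec (.of K[X])
  f b := match b with
    | true => uB R p K L
    | false => uC R p K L
  mem₀ := by
    rw [Scheme.presieve₀_mem_precoverage_iff]
    refine ⟨fun x => ?_, fun b => ?_⟩
    · rcases XX_cover R p K L x with ⟨y, h⟩ | ⟨z, h⟩
      · exact ⟨true, y, h⟩
      · exact ⟨false, z, h⟩
    · cases b
      · exact inferInstanceAs (IsOpenImmersion (uC R p K L))
      · exact inferInstanceAs (IsOpenImmersion (uB R p K L))

/-! ### Transfer along an isomorphism -/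

lemma transfer {T T' Y Z : Scheme.{u}} (e : T' ⟶ T) [IsIso e] (a : T ⟶ Y) (b : T ⟶ Z)
    (a' : T' ⟶ Y) (b' : T' ⟶ Z) (ha : e ≫ a = a') (hb : e ≫ b = b')
    (H : ∀ s : Γ(T', ⊤), ∃ (y : Γ(Y, ⊤)) (z : Γ(Z, ⊤)), s = a'.appTop y * b'.appTop z)
    (s : Γ(T, ⊤)) : ∃ (y : Γ(Y, ⊤)) (z : Γ(Z, ⊤)), s = a.appTop y * b.appTop z := by
  subst ha hb
  obtain ⟨y, z, h⟩ := H (e.appTop s)
  refine ⟨y, z, ?_⟩
  have hinj : Function.Injective e.appTop := (ConcreteCategory.bijective_of_isIso e.appTop).1
  apply hinj
  rw [h, map_mul, Scheme.Hom.comp_appTop, Scheme.Hom.comp_appTop]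
  rfl

/-- the intersection of the two charts -/
def toPB : Spec (.of L) ⟶ pullback (uB R p K L) (uC R p K L) :=
  pullback.lift (fB R p K L) (fC K L) (cond R p K L)

lemma toPB_fst : toPB R p K L ≫ pullback.fst _ _ = fB R p K L := pullback.lift_fst _ _ _

lemma toPB_snd : toPB R p K L ≫ pullback.snd _ _ = fC K L := pullback.lift_snd _ _ _

instance : IsIso (toPB R p K L) := by
  rw [isIso_iff_isOpenImmersion_and_surjective]
  constructor
  · have : IsOpenImmersion (toPB R p K L ≫ pullback.fst _ _) := by
      rw [toPB_fst]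
      infer_instance
    exact IsOpenImmersion.of_comp _ (pullback.fst _ _)
  · refine ⟨fun t => ?_⟩
    have h1 : uB R p K L (pullback.fst (uB R p K L) (uC R p K L) t) =
        uC R p K L (pullback.snd (uB R p K L) (uC R p K L) t) := by
      rw [← Scheme.Hom.comp_apply, ← Scheme.Hom.comp_apply, pullback.condition]
    obtain ⟨v, hv, -⟩ := XX_eq R p K L h1
    refine ⟨v, ?_⟩
    apply (pullback.fst (uB R p K L) (uC R p K L)).isOpenEmbedding.injective
    rw [← hv, ← Scheme.Hom.comp_apply, toPB_fst]

/-- the global sections of an affine scheme -/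
lemma appTop_spec {A B : Type u} [CommRing A] [CommRing B] (φ : A →+* B) (a : A) :
    (Spec.map (CommRingCat.ofHom φ)).appTop ((Scheme.ΓSpecIso (.of A)).inv a) =
      (Scheme.ΓSpecIso (.of B)).inv (φ a) :=
  (congr($(Scheme.ΓSpecIso_inv_naturality (CommRingCat.ofHom φ)) a)).symm

lemma surj_L (s : Γ(Spec (.of L), ⊤)) :
    ∃ (y : Γ(Spec (.of (BB R p)), ⊤)) (z : Γ(Spec (.of K[X]), ⊤)),
      s = (fB R p K L).appTop y * (fC K L).appTop z := by
  let _ := (beta K L p).toAlgebra
  have hal : ∀ b, algebraMap (BB R p) L b = beta K L p b := fun _ => rfl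
  have hloc : IsLocalization.Away (bR R p p) L := isLocalization_beta (Fact.out : Prime p) K L
  obtain ⟨l, rfl⟩ : ∃ l : L, s = (Scheme.ΓSpecIso (.of L)).inv l := by
    refine ⟨(Scheme.ΓSpecIso (.of L)).hom s, ?_⟩
    exact congr($((Scheme.ΓSpecIso (.of L)).hom_inv_id) s).symm
  obtain ⟨n, b, hb⟩ := IsLocalization.Away.surj (bR R p p) l
  have hu : IsUnit (C (algebraMap R K p) : K[X]) := by
    rw [isUnit_C]
    exact IsLocalization.Away.algebraMap_isUnit p
  obtain ⟨c, hc⟩ := hu.exists_right_inv
  refine ⟨(Scheme.ΓSpecIso (.of (BB R p))).inv b, (Scheme.ΓSpecIso (.of K[X])).inv (c ^ n), ?_⟩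
  rw [fB, fC, appTop_spec, appTop_spec, ← map_mul]
  congr 1
  rw [← hal, ← hb, hal, beta_bR, mul_assoc, ← map_pow, ← map_mul, ← mul_pow, hc, one_pow, map_one,
    mul_one]

instance : IsSeparated (ff R p K L) := by
  have hB : IsIso (pullback.fst (uB R p K L) (uB R p K L)) := inferInstance
  have hC : IsIso (pullback.fst (uC R p K L) (uC R p K L)) := inferInstance
  have : ∀ i, IsAffine ((cv R p K L).X i) := by
    rintro (_ | _)
    · exact inferInstanceAs (IsAffine (Spec (.of K[X])))
    · exact inferInstanceAs (IsAffine (Spec (.of (BB R p))))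
  refine sep_of_cover (ff R p K L) (cv R p K L) ?_ ?_
  · rintro (_ | _) (_ | _)
    · exact IsAffine.of_isIso (pullback.fst (uC R p K L) (uC R p K L))
    · exact IsAffine.of_isIso ((pullbackSymmetry (uC R p K L) (uB R p K L)).hom ≫
        inv (toPB R p K L))
    · exact IsAffine.of_isIso (inv (toPB R p K L))
    · exact IsAffine.of_isIso (pullback.fst (uB R p K L) (uB R p K L))
  · rintro (_ | _) (_ | _)
    · intro s
      obtain ⟨a, rfl⟩ := (ConcreteCategory.bijective_of_isIso
        (pullback.fst (uC R p K L) (uC R p K L)).appTop).2 s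
      refine ⟨a, 1, ?_⟩
      rw [map_one, mul_one]
      rfl
    · refine transfer (toPB R p K L ≫ (pullbackSymmetry (uC R p K L) (uB R p K L)).inv)
        (pullback.fst _ _) (pullback.snd _ _) (fC K L) (fB R p K L) ?_ ?_ ?_
      · rw [Category.assoc, pullbackSymmetry_inv_comp_fst, toPB_snd]
      · rw [Category.assoc, pullbackSymmetry_inv_comp_snd, toPB_fst]
      · intro s
        obtain ⟨y, z, h⟩ := surj_L R p K L s
        exact ⟨z, y, by rw [h, mul_comm]⟩
    · exact transfer (toPB R p K L) (pullback.fst _ _) (pullback.snd _ _) (fB R p K L) (fC K L)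
        (toPB_fst R p K L) (toPB_snd R p K L) (surj_L R p K L)
    · intro s
      obtain ⟨a, rfl⟩ := (ConcreteCategory.bijective_of_isIso
        (pullback.fst (uB R p K L) (uB R p K L)).appTop).2 s
      refine ⟨a, 1, ?_⟩
      rw [map_one, mul_one]
      rfl

instance : (XX R p K L).IsSeparated :=
  (HasAffineProperty.iff_of_isAffine (P := @IsSeparated)).mp
    (inferInstance : IsSeparated (ff R p K L))

end

end Pool.Agent.Q37.QA
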