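import Pool.Agent.Q37.QA.Geo3
import Pool.Agent.Q37.QA.Dev1

/-!
Functions on the scheme.
-/

universe u

open CategoryTheory Limits AlgebraicGeometry Polynomial Opposite

namespace Pool.Agent.Q37.QA

open Pool.Agent.W506

set_option backward.isDefEq.respectTransparency false

noncomputable section

section ev

variable {X : Scheme.{u}} {A : Type u} [CommRing A] (u : Spec (.of A) ⟶ X)

/-- evaluation of functions along a morphism from an affine scheme -/
def ev (W : X.Opens) (h : ⊤ ≤ u ⁻¹ᵁ W) : Γ(X, W) →+* A :=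
  ((Scheme.ΓSpecIso (.of A)).hom.hom).comp (u.appLE W ⊤ h).hom

lemma ev_ro {W W' : X.Opens} (h : ⊤ ≤ u ⁻¹ᵁ W) (hW : W ≤ W') (h' : ⊤ ≤ u ⁻¹ᵁ W')
    (s : Γ(X, W')) : ev u W h (ro hW s) = ev u W' h' s := by
  have h1 := Scheme.Hom.map_appLE u h (homOfLE hW).op
  exact congrArg (Scheme.ΓSpecIso (.of A)).hom.hom congr($h1 s)

lemma ev_bijective [IsOpenImmersion u] {W : X.Opens} (hW : W = u.opensRange)
    (h : ⊤ ≤ u ⁻¹ᵁ W) : Function.Bijective (ev u W h) := by
  have h1 : IsIso (u.app W) := u.isIso_app W hW.le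
  have h2 : IsIso (homOfLE h) := by
    have h3 : u ⁻¹ᵁ W = ⊤ := top_le_iff.1 h
    have h4 : homOfLE h = eqToHom h3.symm := Subsingleton.elim _ _
    rw [h4]
    infer_instance
  have h5 : IsIso (u.appLE W ⊤ h) := by
    rw [Scheme.Hom.appLE]
    infer_instance
  have h6 := ConcreteCategory.bijective_of_isIso (u.appLE W ⊤ h)
  have h7 := ConcreteCategory.bijective_of_isIso (Scheme.ΓSpecIso (.of A)).hom
  exact h7.comp h6

lemma ev_top (s : Γ(X, ⊤)) (h : ⊤ ≤ u ⁻¹ᵁ ⊤) :
    ev u ⊤ h s = (Scheme.ΓSpecIso (.of A)).hom (u.appTop s) := by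
  have h1 : u.appLE ⊤ ⊤ h = u.appTop := Scheme.Hom.appLE_eq_app u (U := ⊤)
  exact congrArg (Scheme.ΓSpecIso (.of A)).hom.hom congr($h1 s)

/-- the points where a function does not vanish -/
lemma mem_basicOpen_ev (s : Γ(X, ⊤)) (h : ⊤ ≤ u ⁻¹ᵁ ⊤) (y : Spec (.of A)) :
    u y ∈ X.basicOpen s ↔ y ∈ PrimeSpectrum.basicOpen (ev u ⊤ h s) := by
  have h1 : u ⁻¹ᵁ X.basicOpen s = (Spec (.of A)).basicOpen (u.appTop s) :=
    Scheme.preimage_basicOpen_top u s
  have h2 : (Spec (.of A)).basicOpen (u.appTop s) = PrimeSpectrum.basicOpen (ev u ⊤ h s) := by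
    rw [ev_top]
    exact basicOpen_eq_of_affine' _
  rw [← h2, ← h1]
  rfl

end ev

variable (R : Type u) [CommRing R] [IsDomain R] (p : R)
  (K : Type u) [Field K] [Algebra R K]
  (L : Type u) [CommRing L] [Algebra K[X] L] [IsLocalization.Away (X : K[X]) L]
variable [Fact (Prime p)] [IsLocalization.Away p K]

/-- the functions pulled back from the affine line -/
def gs : R[X] →+* Γ(XX R p K L, ⊤) :=
  (ff R p K L).appTop.hom.comp (Scheme.ΓSpecIso (.of R[X])).inv.hom

lemma ev_uB (a : R[X]) (h : ⊤ ≤ uB R p K L ⁻¹ᵁ ⊤) : ev (uB R p K L) ⊤ h (gs R p K L a) =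
    bA R p a := by
  rw [ev_top]
  have h1 : (uB R p K L).appTop (gs R p K L a) = (uB R p K L ≫ ff R p K L).appTop
      ((Scheme.ΓSpecIso (.of R[X])).inv a) := by
    rw [Scheme.Hom.comp_appTop]
    rfl
  rw [h1, uB_ff, appTop_spec]
  exact congr($((Scheme.ΓSpecIso (.of (BB R p))).inv_hom_id) (bA R p a))

lemma ev_uC (a : R[X]) (h : ⊤ ≤ uC R p K L ⁻¹ᵁ ⊤) : ev (uC R p K L) ⊤ h (gs R p K L a) =
    a.map (algebraMap R K) := by
  rw [ev_top]
  have h1 : (uC R p K L).appTop (gs R p K L a) = (uC R p K L ≫ ff R p K L).appTop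
      ((Scheme.ΓSpecIso (.of R[X])).inv a) := by
    rw [Scheme.Hom.comp_appTop]
    rfl
  rw [h1, uC_ff, appTop_spec]
  exact congr($((Scheme.ΓSpecIso (.of K[X])).inv_hom_id) (a.map (algebraMap R K)))

lemma range_fB (y : Spec (.of (BB R p))) (hy : y ∈ PrimeSpectrum.basicOpen (bR R p p)) :
    ∃ v, fB R p K L v = y := by
  let _ := (beta K L p).toAlgebra
  have hloc : IsLocalization.Away (bR R p p) L := isLocalization_beta (Fact.out : Prime p) K L
  have h1 := PrimeSpectrum.localization_away_comap_range L (bR R p p)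
  have h2 : y ∈ Set.range (PrimeSpectrum.comap (algebraMap (BB R p) L)) := by
    rw [h1]
    exact hy
  exact h2

lemma basicOpen_eq : (XX R p K L).basicOpen (gs R p K L (C p)) = (uC R p K L).opensRange := by
  ext x
  constructor
  · intro hx
    rcases XX_cover R p K L x with ⟨y, rfl⟩ | ⟨z, rfl⟩
    · have h1 := (mem_basicOpen_ev (uB R p K L) (gs R p K L (C p)) le_top y).1 hx
      rw [ev_uB, bA_C] at h1
      obtain ⟨v, rfl⟩ := range_fB R p K L y h1
      refine ⟨fC K L v, ?_⟩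
      rw [← Scheme.Hom.comp_apply, ← cond, Scheme.Hom.comp_apply]
    · exact ⟨z, rfl⟩
  · rintro ⟨z, rfl⟩
    refine (mem_basicOpen_ev (uC R p K L) (gs R p K L (C p)) le_top z).2 ?_
    rw [ev_uC, Polynomial.map_C]
    have hu : IsUnit (C (algebraMap R K p) : K[X]) := by
      rw [isUnit_C]
      exact IsLocalization.Away.algebraMap_isUnit p
    intro hz
    exact z.2.ne_top (Ideal.eq_top_of_isUnit_mem _ hz hu)

end

end Pool.Agent.Q37.QA
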