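import Pool.Agent.Q37.QA.Geo4

/-!
The scheme has the properties which are used to generate all the coherent modules.
-/

universe u

open CategoryTheory Limits AlgebraicGeometry Polynomial Opposite

namespace Pool.Agent.Q37.QA

open Pool.Agent.W506

set_option backward.isDefEq.respectTransparency false

noncomputable section

lemma pid_of_equiv {A B : Type*} [CommRing A] [CommRing B] (e : A ≃+* B)
    (h : IsPrincipalIdealRing B) : IsPrincipalIdealRing A :=
  IsPrincipalIdealRing.of_surjective e.symm.toRingHom e.symm.surjective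

lemma dom_of_equiv {A B : Type*} [CommRing A] [CommRing B] (e : A ≃+* B)
    (h : IsDomain B) : IsDomain A := e.toMulEquiv.isDomain B

/-- quotients by corresponding elements -/
def quotEquiv {A B : Type*} [CommRing A] [CommRing B] (e : A ≃+* B) (a : A) (b : B)
    (h : e a = b) : (A ⧸ Ideal.span {a}) ≃+* (B ⧸ Ideal.span {b}) :=
  Ideal.quotientEquiv _ _ e (by
    subst h
    rw [Ideal.map_span, Set.image_singleton]
    rfl)

lemma reg_transfer {A B : Type*} [CommRing A] [CommRing B] (e : A ≃+* B) (a : A) (b : B)
    (h : e a = b) (hb : ∀ c, b * c = 0 → c = 0) (c : A) (hc : a * c = 0) : c = 0 := by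
  apply e.injective
  rw [map_zero]
  apply hb
  rw [← h, ← map_mul, hc, map_zero]

lemma mul_transfer {A B : Type*} [CommRing A] [CommRing B] (e : A ≃+* B) (a x : A) (b y t : B)
    (h : e a = b) (h' : e x = y) (hb : b = y * t) : a = x * e.symm t := by
  apply e.injective
  rw [h, map_mul, h', e.apply_symm_apply, hb]

variable (R : Type u) [CommRing R] [IsDomain R] (p : R)
  (K : Type u) [Field K] [Algebra R K]
  (L : Type u) [CommRing L] [Algebra K[X] L] [IsLocalization.Away (X : K[X]) L]
variable [Fact (Prime p)] [IsLocalization.Away p K]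

/-- the first affine open set -/
def UU : (XX R p K L).Opens := (uB R p K L).opensRange

/-- the functions on the first affine open set -/
def eU : Γ(XX R p K L, UU R p K L) ≃+* BB R p :=
  RingEquiv.ofBijective (ev (uB R p K L) (UU R p K L) (fun x _ => ⟨x, rfl⟩))
    (ev_bijective _ rfl _)

lemma hWle : ⊤ ≤ uC R p K L ⁻¹ᵁ (XX R p K L).basicOpen (gs R p K L (C p)) := by
  rw [basicOpen_eq]
  exact fun x _ => ⟨x, rfl⟩

/-- the functions on the second affine open set -/
def eW : Γ(XX R p K L, (XX R p K L).basicOpen (gs R p K L (C p))) ≃+* K[X] :=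
  RingEquiv.ofBijective (ev (uC R p K L) _ (hWle R p K L))
    (ev_bijective _ (basicOpen_eq R p K L) _)

lemma eU_gs (a : R[X]) : eU R p K L (ro le_top (gs R p K L a)) = bA R p a :=
  (ev_ro (uB R p K L) _ _ le_top _).trans (ev_uB R p K L a _)

lemma eW_gs (a : R[X]) : eW R p K L (ro le_top (gs R p K L a)) = a.map (algebraMap R K) :=
  (ev_ro (uC R p K L) _ _ le_top _).trans (ev_uC R p K L a _)

omit [IsDomain R] [Fact (Prime p)] in
lemma pid_kk (hk : IsField (kk R p)) : IsPrincipalIdealRing (kk R p)[X] ∧
    IsDomain (kk R p)[X] := by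
  let _ := hk.toField
  exact ⟨inferInstance, inferInstance⟩

/-- the properties of the scheme -/
def datX [IsNoetherianRing R] (hk : IsField (kk R p)) : Dat (XX R p K L) where
  U := UU R p K L
  p := gs R p K L (C p)
  x := gs R p K L X
  t := (eU R p K L).symm (bt R p)
  hU := isAffineOpen_opensRange _
  hW := by
    rw [basicOpen_eq]
    exact isAffineOpen_opensRange _
  cov := by
    rw [basicOpen_eq]
    intro x _
    rcases XX_cover R p K L x with h | h
    · exact Or.inl h
    · exact Or.inr h
  hp := mul_transfer (eU R p K L) _ _ (bR R p p) (bx R p) (bt R p) (eU_gs R p K L (C p))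
    (eU_gs R p K L X) bx_mul_bt.symm
  noe := isNoetherianRing_of_ringEquiv _ (eU R p K L).symm
  pidW := pid_of_equiv (eW R p K L) inferInstance
  domW := dom_of_equiv (eW R p K L) inferInstance
  regU := reg_transfer (eU R p K L) _ (bR R p p) (eU_gs R p K L (C p))
    (regular_p (Fact.out : Prime p))
  regW := reg_transfer (eW R p K L) _ X ((eW_gs R p K L X).trans (Polynomial.map_X _))
    (fun c hc => (mul_eq_zero.1 hc).resolve_left X_ne_zero)
  pidx := pid_of_equiv ((quotEquiv (eU R p K L) _ (bx R p) (eU_gs R p K L X)).trans (ex R p))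
    (pid_kk R p hk).1
  domx := dom_of_equiv ((quotEquiv (eU R p K L) _ (bx R p) (eU_gs R p K L X)).trans (ex R p))
    (pid_kk R p hk).2
  pidt := pid_of_equiv ((quotEquiv (eU R p K L) _ (bt R p)
    (RingEquiv.apply_symm_apply _ _)).trans (et R p)) (pid_kk R p hk).1
  domt := dom_of_equiv ((quotEquiv (eU R p K L) _ (bt R p)
    (RingEquiv.apply_symm_apply _ _)).trans (et R p)) (pid_kk R p hk).2

end

end Pool.Agent.Q37.QA
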