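import Pool.Agent.Q37.QA.Geo5

/-!
The scheme is Noetherian and not quasi-affine.
-/

universe u

open CategoryTheory Limits AlgebraicGeometry Polynomial Opposite

namespace Pool.Agent.Q37.QA

open Pool.Agent.W506

set_option backward.isDefEq.respectTransparency false

noncomputable section

variable (R : Type u) [CommRing R] [IsDomain R] (p : R)
  (K : Type u) [Field K] [Algebra R K]
  (L : Type u) [CommRing L] [Algebra K[X] L] [IsLocalization.Away (X : K[X]) L]
variable [Fact (Prime p)] [IsLocalization.Away p K]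

instance XX_noetherian [IsNoetherianRing R] : IsNoetherian (XX R p K L) := by
  have hfin : Finite (cv R p K L).I₀ := inferInstanceAs (Finite Bool)
  have haff : ∀ i, IsAffine ((cv R p K L).X i) := by
    rintro (_ | _)
    · exact inferInstanceAs (IsAffine (Spec (.of K[X])))
    · exact inferInstanceAs (IsAffine (Spec (.of (BB R p))))
  rw [isNoetherian_iff_of_finite_affine_openCover (𝒰 := cv R p K L)]
  rintro (_ | _)
  · exact isNoetherianRing_of_ringEquiv K[X]
      (Scheme.ΓSpecIso (.of K[X])).commRingCatIsoToRingEquiv.symm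
  · exact isNoetherianRing_of_ringEquiv (BB R p)
      (Scheme.ΓSpecIso (.of (BB R p))).commRingCatIsoToRingEquiv.symm

omit [IsDomain R] in
lemma map_hom {A B : Type u} [CommRing A] [CommRing B] (φ : A →+* B)
    (z : Γ(Spec (.of A), ⊤)) :
    (Scheme.ΓSpecIso (.of B)).hom ((Spec.map (CommRingCat.ofHom φ)).appTop z) =
      φ ((Scheme.ΓSpecIso (.of A)).hom z) :=
  congr($(Scheme.ΓSpecIso_naturality (CommRingCat.ofHom φ)) z)

lemma compat (s : Γ(XX R p K L, ⊤)) : beta K L p (ev (uB R p K L) ⊤ le_top s) =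
    algebraMap K[X] L (ev (uC R p K L) ⊤ le_top s) := by
  rw [ev_top, ev_top, ← map_hom, ← map_hom]
  have h1 : (fB R p K L ≫ uB R p K L).appTop s = (fC K L ≫ uC R p K L).appTop s := by
    rw [cond]
  rw [Scheme.Hom.comp_appTop, Scheme.Hom.comp_appTop] at h1
  exact congrArg (Scheme.ΓSpecIso (.of L)).hom.hom h1

lemma ev_poly (s : Γ(XX R p K L, ⊤)) :
    ∃ r : R[X], ev (uB R p K L) ⊤ le_top s = bA R p r :=
  exists_poly (Fact.out : Prime p) K L _ _ (compat R p K L s)

omit [IsDomain R] [Fact (Prime p)] in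
lemma rx_bA (r : R[X]) : rx R p (bA R p r) = C (Ideal.Quotient.mk (Ideal.span {p}) (r.coeff 0)) := by
  rw [rx, bLift_bA]
  induction r using Polynomial.induction_on' with
  | add a b ha hb => rw [eval₂_add, ha, hb, coeff_add, map_add, map_add]
  | monomial n c =>
    rw [eval₂_monomial]
    rcases n with _ | n
    · simp
    · simp [coeff_monomial]

theorem not_quasiAffine : ¬ (XX R p K L).IsQuasiAffine := by
  intro hqa
  have hk : IsDomain (kk R p) := by
    have : (Ideal.span {p}).IsPrime :=
      (Ideal.span_singleton_prime (Fact.out : Prime p).ne_zero).2 Fact.out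
    exact Ideal.Quotient.isDomain _
  let y₁ : PrimeSpectrum (BB R p) := ⟨RingHom.ker (rx R p), RingHom.ker_isPrime _⟩
  let y₂ : PrimeSpectrum (BB R p) :=
    ⟨RingHom.ker ((evalRingHom (0 : kk R p)).comp (rx R p)), RingHom.ker_isPrime _⟩
  have h1 : (XX R p K L).toSpecΓ (uB R p K L y₁) = (XX R p K L).toSpecΓ (uB R p K L y₂) := by
    apply PrimeSpectrum.ext
    ext s
    have h2 : ∀ y, s ∈ ((XX R p K L).toSpecΓ (uB R p K L y)).asIdeal ↔
        ev (uB R p K L) ⊤ le_top s ∈ y.asIdeal := by
      intro y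
      have h3 := (mem_basicOpen_ev (uB R p K L) s le_top y)
      rw [← Scheme.toSpecΓ_preimage_basicOpen] at h3
      exact not_iff_not.1 h3
    rw [h2, h2]
    obtain ⟨r, hr⟩ := ev_poly R p K L s
    rw [hr]
    change rx R p (bA R p r) = 0 ↔ (rx R p (bA R p r)).eval 0 = 0
    rw [rx_bA, eval_C, C_eq_zero]
  have h4 : uB R p K L y₁ = uB R p K L y₂ :=
    (XX R p K L).toSpecΓ.isOpenEmbedding.injective h1
  have h5 : y₁ = y₂ := (uB R p K L).isOpenEmbedding.injective h4
  have h6 : bt R p ∈ y₂.asIdeal := by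
    change (rx R p (bt R p)).eval 0 = 0
    rw [rx, bLift_bt, eval_X]
  rw [← h5] at h6
  change rx R p (bt R p) = 0 at h6
  rw [rx, bLift_bt] at h6
  exact X_ne_zero h6

end

end Pool.Agent.Q37.QA
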