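import Pool.Agent.Q37.QA.Geo6

/-!
The scheme is integral.
-/

universe u

open CategoryTheory Limits AlgebraicGeometry Polynomial Opposite

namespace Pool.Agent.Q37.QA

set_option backward.isDefEq.respectTransparency false

noncomputable section

variable (R : Type u) [CommRing R] [IsDomain R] (p : R)
  (K : Type u) [Field K] [Algebra R K]
  (L : Type u) [CommRing L] [Algebra K[X] L] [IsLocalization.Away (X : K[X]) L]
variable [Fact (Prime p)] [IsLocalization.Away p K]

include K in
lemma dom_L : IsDomain L :=
  IsLocalization.isDomain_of_le_nonZeroDivisors L (M := Submonoid.powers (X : K[X]))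
    (powers_le_nonZeroDivisors_of_noZeroDivisors X_ne_zero)

/-- two nonempty open sets of an irreducible space meet -/
lemma meets {T : Type*} [TopologicalSpace T] [IrreducibleSpace T] {U V : Set T} (hU : IsOpen U)
    (hV : IsOpen V) (h : U.Nonempty) (h' : V.Nonempty) : (U ∩ V).Nonempty :=
  nonempty_preirreducible_inter hU hV h h'

instance XX_irreducible : IrreducibleSpace (XX R p K L) := by
  have hL := dom_L K L
  have hB : IsDomain (BB R p) := (beta_injective (Fact.out : Prime p) K L).isDomain
  have iL : IrreducibleSpace (Spec (.of L)) := inferInstance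
  have iB : IrreducibleSpace (Spec (.of (BB R p))) := inferInstance
  have iC : IrreducibleSpace (Spec (.of K[X])) := inferInstance
  have key : ∀ U : Set (XX R p K L), IsOpen U → U.Nonempty →
      ((fB R p K L ≫ uB R p K L) ⁻¹' U).Nonempty := by
    rintro U hU ⟨x, hx⟩
    rcases XX_cover R p K L x with ⟨y, rfl⟩ | ⟨z, rfl⟩
    · obtain ⟨_, h1, v, rfl⟩ := meets (hU.preimage (uB R p K L).continuous)
        (fB R p K L).isOpenEmbedding.isOpen_range ⟨y, hx⟩ ⟨_, ⟨Classical.arbitrary _, rfl⟩⟩
      refine ⟨v, ?_⟩
      simpa using h1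
    · obtain ⟨_, h1, v, rfl⟩ := meets (hU.preimage (uC R p K L).continuous)
        (fC K L).isOpenEmbedding.isOpen_range ⟨z, hx⟩ ⟨_, ⟨Classical.arbitrary _, rfl⟩⟩
      refine ⟨v, ?_⟩
      rw [cond]
      simpa using h1
  have hpre : PreirreducibleSpace (XX R p K L) := by
    refine ⟨fun U V hU hV h h' => ?_⟩
    rw [Set.univ_inter] at h h'
    obtain ⟨v, h1, h2⟩ := meets (hU.preimage (fB R p K L ≫ uB R p K L).continuous)
      (hV.preimage (fB R p K L ≫ uB R p K L).continuous) (key U hU h) (key V hV h')
    exact ⟨(fB R p K L ≫ uB R p K L) v, trivial, h1, h2⟩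
  exact ⟨⟨uB R p K L (Classical.arbitrary _)⟩⟩

instance XX_reduced : IsReduced (XX R p K L) := by
  have hB : IsDomain (BB R p) := by
    have hL := dom_L K L
    exact (beta_injective (Fact.out : Prime p) K L).isDomain
  have : ∀ i, IsReduced ((cv R p K L).X i) := by
    rintro (_ | _)
    · exact inferInstanceAs (IsReduced (Spec (.of K[X])))
    · exact inferInstanceAs (IsReduced (Spec (.of (BB R p))))
  exact IsReduced.of_openCover _ (cv R p K L)

instance XX_integral : IsIntegral (XX R p K L) := isIntegral_of_irreducibleSpace_of_isReduced _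

end

end Pool.Agent.Q37.QA
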