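import Pool.Agent.Q37.QA.Coh

/-!
Quasi-coherence and coherence in terms of sections are local properties.
-/

universe u v

open CategoryTheory Limits Opposite TopologicalSpace AlgebraicGeometry

namespace Pool.Agent.Q37.QA

open Pool.Agent.W506

set_option backward.isDefEq.respectTransparency false

variable {X : Scheme.{u}}

lemma exists_basic_cover {W : X.Opens} (hW : IsAffineOpen W) (P : X.Opens → Prop)
    (hP : ∀ V V' : X.Opens, V' ≤ V → P V → P V') (h : ∀ x ∈ W, ∃ V : X.Opens, x ∈ V ∧ P V) :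
    ∃ (n : ℕ) (g : Fin n → Γ(X, W)), Ideal.span (Set.range g) = ⊤ ∧
      (W ≤ ⨆ i, X.basicOpen (g i)) ∧ ∀ i, P (X.basicOpen (g i)) := by
  let s : Set Γ(X, W) := {f | P (X.basicOpen f)}
  have hs : Ideal.span s = ⊤ := by
    rw [← hW.self_le_iSup_basicOpen_iff]
    intro x hx
    obtain ⟨V, hxV, hV⟩ := h x hx
    obtain ⟨f, hf, hxf⟩ := hW.exists_basicOpen_le (V := V) ⟨x, hxV⟩ hx
    have hfs : f ∈ s := hP _ _ hf hV
    rw [Opens.mem_iSup]
    exact ⟨⟨f, hfs⟩, hxf⟩
  have h1 : (1 : Γ(X, W)) ∈ Ideal.span s := by rw [hs]; trivial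
  obtain ⟨n, a, f, h⟩ := Submodule.mem_span_set'.1 h1
  have h2 : Ideal.span (Set.range fun i => (f i : Γ(X, W))) = ⊤ := by
    rw [Ideal.eq_top_iff_one, ← h]
    exact Ideal.sum_mem _ (fun i _ => Ideal.mul_mem_left _ _ (Ideal.subset_span ⟨i, rfl⟩))
  refine ⟨n, fun i => f i, h2, ?_, fun i => (f i).2⟩
  have h3 := (hW.self_le_iSup_basicOpen_iff).2 h2
  intro x hx
  obtain ⟨⟨_, i, rfl⟩, hi⟩ := Opens.mem_iSup.1 (h3 hx)
  exact Opens.mem_iSup.2 ⟨i, hi⟩

lemma pow_smul_le {R M : Type*} [CommRing R] [AddCommGroup M] [Module R M] (r : R) {k K : ℕ}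
    (hk : k ≤ K) {m : M} (h : r ^ k • m = 0) : r ^ K • m = 0 := by
  obtain ⟨l, rfl⟩ := Nat.exists_eq_add_of_le' hk
  rw [pow_add, mul_smul, h, smul_zero]

section

variable {M : X.Modules} {W : X.Opens} (hW : IsAffineOpen W) {n : ℕ} {g : Fin n → Γ(X, W)}
  (hc : W ≤ ⨆ i, X.basicOpen (g i)) (hg : ∀ i, QCOn M (X.basicOpen (g i)))

include hW hc hg in
lemma uniq_of_cover (f : Γ(X, W)) (t : Γ(M, W)) (ht : rs M (X.basicOpen_le f) t = 0) :
    ∃ k : ℕ, f ^ k • t = 0 := by
  have h1 : ∀ i, ∃ k : ℕ, ro (X.basicOpen_le (g i)) f ^ k • rs M (X.basicOpen_le (g i)) t = 0 := by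
    intro i
    apply (hg i).uniq _ (hW.basicOpen _) le_rfl
    have hle : X.basicOpen (ro (X.basicOpen_le (g i)) f) ≤ X.basicOpen f := by
      rw [basicOpen_ro]
      exact inf_le_right
    have h2 := congrArg (rs M hle) ht
    rw [rs_rs, map_zero] at h2
    rw [rs_rs]
    exact h2
  choose k hk using h1
  refine ⟨∑ i, k i, ?_⟩
  apply ext_rs (fun i => X.basicOpen (g i)) (fun i => X.basicOpen_le (g i)) hc
  intro i
  rw [map_zero, rs_smul, map_pow]
  exact pow_smul_le _ (Finset.single_le_sum (f := k) (fun _ _ => Nat.zero_le _)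
    (Finset.mem_univ i)) (hk i)

include hW hc hg in
lemma ext_of_cover (f : Γ(X, W)) (s : Γ(M, X.basicOpen f)) :
    ∃ (k : ℕ) (t : Γ(M, W)), rs M (X.basicOpen_le f) t = ro (X.basicOpen_le f) f ^ k • s := by
  have hle : ∀ i, X.basicOpen (ro (X.basicOpen_le (g i)) f) ≤ X.basicOpen f := by
    intro i
    rw [basicOpen_ro]
    exact inf_le_right
  have h1 := fun i => (hg i).ext _ (hW.basicOpen _) le_rfl (ro (X.basicOpen_le (g i)) f)
    (rs M (hle i) s)
  choose k t ht using h1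
  set K := ∑ i, k i with hK
  have hkK : ∀ i, k i ≤ K := fun i => Finset.single_le_sum (f := k) (fun _ _ => Nat.zero_le _)
    (Finset.mem_univ i)
  -- uniform exponents
  have h2 : ∀ i, ∃ t' : Γ(M, X.basicOpen (g i)),
      rs M (X.basicOpen_le (ro (X.basicOpen_le (g i)) f)) t' =
        ro ((hle i).trans (X.basicOpen_le f)) f ^ K • rs M (hle i) s := by
    intro i
    obtain ⟨l, hl⟩ := Nat.exists_eq_add_of_le' (hkK i)
    refine ⟨ro (X.basicOpen_le (g i)) f ^ l • t i, ?_⟩
    rw [rs_smul, ht, smul_smul, map_pow, ro_ro, ← pow_add, ← hl]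
  choose t' ht' using h2
  have hij : ∀ i j, ∃ l : ℕ, ro (inf_le_left.trans (X.basicOpen_le (g i)) :
      X.basicOpen (g i) ⊓ X.basicOpen (g j) ≤ W) f ^ l •
      (rs M (inf_le_left : X.basicOpen (g i) ⊓ X.basicOpen (g j) ≤ _) (t' i) -
        rs M (inf_le_right : X.basicOpen (g i) ⊓ X.basicOpen (g j) ≤ _) (t' j)) = 0 := by
    intro i j
    have haff : IsAffineOpen (X.basicOpen (g i) ⊓ X.basicOpen (g j)) := by
      rw [← X.basicOpen_mul]
      exact hW.basicOpen _
    apply ((hg i).mono inf_le_left).uniq _ haff le_rfl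
    set D := X.basicOpen (ro (inf_le_left.trans (X.basicOpen_le (g i)) :
      X.basicOpen (g i) ⊓ X.basicOpen (g j) ≤ W) f) with hD
    have hD' : D = (X.basicOpen (g i) ⊓ X.basicOpen (g j)) ⊓ X.basicOpen f := basicOpen_ro _ _
    have hDi : D ≤ X.basicOpen (ro (X.basicOpen_le (g i)) f) := by
      rw [basicOpen_ro, hD']
      exact le_inf (inf_le_left.trans inf_le_left) inf_le_right
    have hDj : D ≤ X.basicOpen (ro (X.basicOpen_le (g j)) f) := by
      rw [basicOpen_ro, hD']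
      exact le_inf (inf_le_left.trans inf_le_right) inf_le_right
    have e1 := congrArg (rs M hDi) (ht' i)
    have e2 := congrArg (rs M hDj) (ht' j)
    rw [rs_rs, rs_smul, map_pow, ro_ro, rs_rs] at e1 e2
    rw [map_sub, rs_rs, rs_rs, e1, e2, sub_self]
  choose l hl using hij
  set L := ∑ i, ∑ j, l i j with hL
  have hlL : ∀ i j, l i j ≤ L := fun i j =>
    (Finset.single_le_sum (f := fun j => l i j) (fun _ _ => Nat.zero_le _)
      (Finset.mem_univ j)).trans (Finset.single_le_sum (f := fun i => ∑ j, l i j)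
        (fun _ _ => Nat.zero_le _) (Finset.mem_univ i))
  obtain ⟨T, hT⟩ := exists_glue (M := M) (fun i => X.basicOpen (g i))
    (fun i => X.basicOpen_le (g i)) hc (fun i => ro (X.basicOpen_le (g i)) f ^ L • t' i) (by
      intro i j
      have h3 := pow_smul_le _ (hlL i j) (hl i j)
      rw [smul_sub, sub_eq_zero] at h3
      rw [rs_smul, rs_smul, map_pow, map_pow, ro_ro, ro_ro]
      exact h3)
  refine ⟨L + K, T, ?_⟩
  have hcov : X.basicOpen f ≤ ⨆ i, X.basicOpen (ro (X.basicOpen_le (g i)) f) := by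
    intro x hx
    obtain ⟨i, hi⟩ := Opens.mem_iSup.1 (hc (X.basicOpen_le f hx))
    refine Opens.mem_iSup.2 ⟨i, ?_⟩
    rw [basicOpen_ro]
    exact ⟨hi, hx⟩
  apply ext_rs _ hle hcov
  intro i
  have h4 := congrArg (rs M (X.basicOpen_le (ro (X.basicOpen_le (g i)) f))) (hT i)
  rw [rs_rs, rs_smul, map_pow, ro_ro, ht', smul_smul, ← pow_add] at h4
  rw [rs_rs, rs_smul, map_pow, ro_ro]
  exact h4

end

/-- quasi-coherence is local -/
theorem qcOn_of_local {M : X.Modules} {U : X.Opens}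
    (h : ∀ x ∈ U, ∃ V : X.Opens, x ∈ V ∧ QCOn M V) : QCOn M U := by
  have key : ∀ (W : X.Opens), IsAffineOpen W → W ≤ U → ∃ (n : ℕ) (g : Fin n → Γ(X, W)),
      Ideal.span (Set.range g) = ⊤ ∧ (W ≤ ⨆ i, X.basicOpen (g i)) ∧
      ∀ i, QCOn M (X.basicOpen (g i)) := fun W hW hle =>
    exists_basic_cover hW (QCOn M) (fun V V' hV h => h.mono hV) (fun x hx => h x (hle hx))
  constructor
  · intro W hW hle f s
    obtain ⟨n, g, -, hc, hg⟩ := key W hW hle
    exact ext_of_cover hW hc hg f s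
  · intro W hW hle f t ht
    obtain ⟨n, g, -, hc, hg⟩ := key W hW hle
    exact uniq_of_cover hW hc hg f t ht

/-- finite generation is local -/
theorem finite_of_cover {M : X.Modules} {W : X.Opens} (hW : IsAffineOpen W) (hM : QCOn M W)
    {n : ℕ} {g : Fin n → Γ(X, W)} (hspan : Ideal.span (Set.range g) = ⊤)
    (hfin : ∀ i, Module.Finite Γ(X, X.basicOpen (g i)) Γ(M, X.basicOpen (g i))) :
    Module.Finite Γ(X, W) Γ(M, W) := by
  choose m e he using fun i => @Module.Finite.exists_fin _ _ _ _ _ (hfin i)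
  choose k y hy using fun i (j : Fin (m i)) => hM.ext W hW le_rfl (g i) (e i j)
  let N : Submodule Γ(X, W) Γ(M, W) :=
    Submodule.span Γ(X, W) (Set.range fun p : (Σ i, Fin (m i)) => y p.1 p.2)
  have hyN : ∀ i j, y i j ∈ N := fun i j => Submodule.subset_span ⟨⟨i, j⟩, rfl⟩
  have hN : N = ⊤ := by
    rw [eq_top_iff]
    intro z _
    have h1 : ∀ i, ∃ l : ℕ, g i ^ l • z ∈ N := by
      intro i
      have h2 : ∀ s : Γ(M, X.basicOpen (g i)), ∃ (l : ℕ) (w : Γ(M, W)), w ∈ N ∧
          rs M (X.basicOpen_le (g i)) w = ro (X.basicOpen_le (g i)) (g i) ^ l • s := by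
        intro s
        have hs : s ∈ Submodule.span Γ(X, X.basicOpen (g i)) (Set.range (e i)) := by
          rw [he i]; trivial
        induction hs using Submodule.span_induction with
        | mem x hx =>
          obtain ⟨j, rfl⟩ := hx
          exact ⟨k i j, y i j, hyN i j, hy i j⟩
        | zero => exact ⟨0, 0, N.zero_mem, by rw [map_zero, smul_zero]⟩
        | add x x' _ _ hx hx' =>
          obtain ⟨l, w, hw, h⟩ := hx
          obtain ⟨l', w', hw', h'⟩ := hx'
          refine ⟨l + l', g i ^ l' • w + g i ^ l • w',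
            N.add_mem (N.smul_mem _ hw) (N.smul_mem _ hw'), ?_⟩
          rw [map_add, rs_smul, rs_smul, h, h', map_pow, map_pow, smul_smul, smul_smul,
            ← pow_add, ← pow_add, smul_add, add_comm l' l]
        | smul a x _ hx =>
          obtain ⟨l, w, hw, h⟩ := hx
          obtain ⟨l', b, hb⟩ := ro_ext hW (g i) a
          refine ⟨l + l', b • w, N.smul_mem _ hw, ?_⟩
          rw [rs_smul, hb, h, smul_smul, smul_smul]
          congr 1
          ring
      obtain ⟨l, w, hw, h⟩ := h2 (rs M (X.basicOpen_le (g i)) z)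
      obtain ⟨l', hl'⟩ := hM.uniq W hW le_rfl (g i) (g i ^ l • z - w) (by
        rw [map_sub, rs_smul, map_pow, h, sub_self])
      refine ⟨l' + l, ?_⟩
      rw [smul_sub, sub_eq_zero, smul_smul, ← pow_add] at hl'
      rw [hl']
      exact N.smul_mem _ hw
    let J : Ideal Γ(X, W) := N.comap (LinearMap.toSpanSingleton Γ(X, W) Γ(M, W) z)
    have hJ : J.radical = ⊤ := by
      rw [eq_top_iff, ← hspan, Ideal.span_le]
      rintro _ ⟨i, rfl⟩
      exact h1 i
    have hJ1 : (1 : Γ(X, W)) ∈ J := by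
      rw [Ideal.radical_eq_top.1 hJ]
      trivial
    have h3 : (1 : Γ(X, W)) • z ∈ N := hJ1
    rwa [one_smul] at h3
  refine ⟨?_⟩
  rw [← hN]
  exact Submodule.fg_span (Set.finite_range _)

/-- coherence over an open set in terms of sections -/
structure LC (M : X.Modules) (U : X.Opens) : Prop where
  qc : QCOn M U
  fin : ∀ V : X.Opens, IsAffineOpen V → V ≤ U → Module.Finite Γ(X, V) Γ(M, V)

lemma LC.mono {M : X.Modules} {U V : X.Opens} (h : LC M U) (hV : V ≤ U) : LC M V :=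
  ⟨h.qc.mono hV, fun V' hV' hle => h.fin V' hV' (hle.trans hV)⟩

lemma LC.co {M : X.Modules} {U : X.Opens} (h : LC M U) (hU : IsAffineOpen U) : CO M U :=
  ⟨h.qc, h.fin U hU le_rfl⟩

/-- coherence is local -/
theorem lc_of_local {M : X.Modules} {U : X.Opens}
    (h : ∀ x ∈ U, ∃ V : X.Opens, x ∈ V ∧ LC M V) : LC M U := by
  have hqc : QCOn M U := qcOn_of_local (fun x hx => by
    obtain ⟨V, hxV, hV⟩ := h x hx
    exact ⟨V, hxV, hV.qc⟩)
  refine ⟨hqc, fun W hW hle => ?_⟩
  obtain ⟨n, g, hspan, -, hg⟩ := exists_basic_cover hW (LC M) (fun V V' hV h => h.mono hV)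
    (fun x hx => h x (hle hx))
  exact finite_of_cover hW (hqc.mono hle) hspan (fun i => (hg i).fin _ (hW.basicOpen _) le_rfl)

end Pool.Agent.Q37.QA
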