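import Pool.Agent.Q37.QA.Glue
import Pool.Agent.Q37.QA.Dev2
import Pool.Agent.W456.Geo5
import Pool.Agent.W456.Geo8

/-!
The cohomology of a perfect complex on a noetherian scheme is bounded and coherent.
-/

universe u v

open CategoryTheory Limits Opposite TopologicalSpace AlgebraicGeometry

namespace Pool.Agent.Q37.QA

open Pool.Agent.W506 Pool.Agent.W456

open scoped ZeroObject

set_option backward.isDefEq.respectTransparency false

attribute [local instance] HasDerivedCategory.standard Abelian.hasFiniteBiproducts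

variable {X : Scheme.{u}}

/-! ### Restriction to an open subscheme -/

/-- sections of a restriction -/
lemma qcOn_of_restrict {M : X.Modules} {U : X.Opens} (h : QCOn (M.restrict U.ι) ⊤) :
    QCOn M U := by
  have hW' : ∀ W : X.Opens, W ≤ U → IsAffineOpen W →
      ∃ V : U.toScheme.Opens, IsAffineOpen V ∧ U.ι ''ᵁ V = W := by
    intro W hle hW
    refine ⟨U.ι ⁻¹ᵁ W, ?_, ?_⟩
    · apply hW.preimage_of_isOpenImmersion
      rwa [Scheme.Opens.opensRange_ι]
    · rw [U.ι.image_preimage_eq_opensRange_inf, Scheme.Opens.opensRange_ι]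
      exact inf_eq_right.2 hle
  have hb : ∀ (V : U.toScheme.Opens) (f : Γ(U, V)),
      U.ι ''ᵁ (U.toScheme.basicOpen f) = X.basicOpen (show Γ(X, U.ι ''ᵁ V) from f) := by
    intro V f
    rw [Scheme.image_basicOpen, Scheme.Opens.ι_appIso]
    rfl
  constructor
  · intro W hW hle f s
    obtain ⟨V, hV, rfl⟩ := hW' W hle hW
    obtain ⟨k, t, ht⟩ := h.ext V hV le_top f (rs M (hb V f).le s)
    refine ⟨k, t, ?_⟩
    have hle' : U.ι ''ᵁ (U.toScheme.basicOpen f) ≤ U.ι ''ᵁ V :=
      U.ι.image_mono (U.toScheme.basicOpen_le f)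
    rw [← map_pow, restrict_smul_ι] at ht
    have ht' : rs M hle' (show Γ(M, U.ι ''ᵁ V) from t) =
        ro hle' (show Γ(X, U.ι ''ᵁ V) from f ^ k) • rs M (hb V f).le s := ht
    have h1 := congrArg (rs M (hb V f).ge) ht'
    rw [rs_rs, rs_smul, ro_ro, rs_rs, rs_refl] at h1
    refine h1.trans ?_
    rw [← map_pow]
  · intro W hW hle f t ht
    obtain ⟨V, hV, rfl⟩ := hW' W hle hW
    obtain ⟨k, hk⟩ := h.uniq V hV le_top f t (by
      have h1 := congrArg (rs M (hb V f).le) ht
      rw [rs_rs, map_zero] at h1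
      exact h1)
    rw [restrict_smul_ι] at hk
    exact ⟨k, hk⟩

lemma lc_of_restrict {M : X.Modules} {U : X.Opens} (h : LC (M.restrict U.ι) ⊤) : LC M U := by
  refine ⟨qcOn_of_restrict h.qc, ?_⟩
  intro W hW hle
  have hV : ∃ V : U.toScheme.Opens, IsAffineOpen V ∧ U.ι ''ᵁ V = W := by
    refine ⟨U.ι ⁻¹ᵁ W, ?_, ?_⟩
    · apply hW.preimage_of_isOpenImmersion
      rwa [Scheme.Opens.opensRange_ι]
    · rw [U.ι.image_preimage_eq_opensRange_inf, Scheme.Opens.opensRange_ι]
      exact inf_eq_right.2 hle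
  obtain ⟨V, hV, rfl⟩ := hV
  obtain ⟨n, e, he⟩ := @Module.Finite.exists_fin _ _ _ _ _ (h.fin V hV le_top)
  rw [Module.finite_def, Submodule.fg_def]
  refine ⟨Set.range (fun i => (show Γ(M, U.ι ''ᵁ V) from e i)), Set.finite_range _, ?_⟩
  rw [eq_top_iff]
  intro z _
  have hz : (show Γ(M.restrict U.ι, V) from z) ∈ Submodule.span Γ(U, V) (Set.range e) := by
    rw [he]; trivial
  have key : ∀ w : Γ(M.restrict U.ι, V), w ∈ Submodule.span Γ(U, V) (Set.range e) →
      (show Γ(M, U.ι ''ᵁ V) from w) ∈ Submodule.span Γ(X, U.ι ''ᵁ V)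
        (Set.range (fun i => (show Γ(M, U.ι ''ᵁ V) from e i))) := by
    intro w hw
    induction hw using Submodule.span_induction with
    | mem x hx =>
      obtain ⟨i, rfl⟩ := hx
      exact Submodule.subset_span ⟨i, rfl⟩
    | zero => exact Submodule.zero_mem _
    | add x y _ _ hx hy => exact Submodule.add_mem _ hx hy
    | smul a x _ hx =>
      have h1 := restrict_smul_ι V a x
      rw [h1]
      exact Submodule.smul_mem _ _ hx
  exact key _ hz

/-! ### Closure properties -/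

lemma LC.iso {M N : X.Modules} (e : M ≅ N) {U : X.Opens} (h : LC M U) : LC N U := by
  refine ⟨h.qc.map (isoOn_of_iso e U), fun V hV hle => ?_⟩
  have := h.fin V hV hle
  exact Module.Finite.of_surjective (ap e.hom V) (ap_bijective_of_isIso e.hom V).2

lemma LC.biprod {M N : X.Modules} {U : X.Opens} (hM : LC M U) (hN : LC N U) : LC (M ⊞ N) U := by
  refine ⟨qcOn_biprod hM.qc hN.qc, fun V hV hle => ?_⟩
  exact (CO.biprod ⟨hM.qc.mono hle, hM.fin V hV hle⟩ ⟨hN.qc.mono hle, hN.fin V hV hle⟩).fin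

lemma lc_of_isZero {M : X.Modules} (h : IsZero M) (U : X.Opens) : LC M U := by
  refine ⟨qcOn_of_subsingleton fun V _ => subsingleton_of_isZero h V, fun V _ _ => ?_⟩
  have := subsingleton_of_isZero h V
  infer_instance

section noeth

variable [IsLocallyNoetherian X]

lemma LC.ker {S : ShortComplex X.Modules} (hS : S.Exact) [Mono S.f] {U : X.Opens}
    (h2 : LC S.X₂ U) (h3 : LC S.X₃ U) : LC S.X₁ U := by
  refine ⟨qcOn_kernel S hS h2.qc h3.qc, fun V hV hle => ?_⟩
  have : IsNoetherianRing Γ(X, V) := IsLocallyNoetherian.component_noetherian ⟨V, hV⟩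
  exact (CO.kernel S hS this ⟨h2.qc.mono hle, h2.fin V hV hle⟩ (h3.qc.mono hle)).fin

omit [IsLocallyNoetherian X] in
lemma LC.coker {S : ShortComplex X.Modules} (hS : S.ShortExact) {U : X.Opens}
    (h1 : LC S.X₁ U) (h2 : LC S.X₂ U) : LC S.X₃ U := by
  refine ⟨qcOn_coker S hS h1.qc h2.qc, fun V hV hle => ?_⟩
  exact (CO.coker S hS hV (h1.qc.mono hle) ⟨h2.qc.mono hle, h2.fin V hV hle⟩).fin

lemma LC.cokernel {M N : X.Modules} (φ : M ⟶ N) {U : X.Opens} (hM : LC M U) (hN : LC N U) :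
    LC (cokernel φ) U := by
  have h1 : LC (kernel φ) U := LC.ker (S := kerS φ) (kerS_exact φ) hM hN
  have h2 : LC (imS₁ φ).X₁ U := h1.iso (kernelFactorThruImage φ).symm
  have h3 : LC (Limits.image φ) U := LC.coker (imS₁_shortExact φ) h2 hM
  have h4 : LC (imS₂ φ).X₃ U := LC.coker (imS₂_shortExact φ) h3 hN
  exact h4.iso (cokernelImageι φ)

lemma LC.homology {K : CochainComplex X.Modules ℤ} {U : X.Opens} (hK : ∀ i, LC (K.X i) U)
    (i : ℤ) : LC (K.homology i) U := by
  have hc : LC (K.cycles i) U := by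
    let S : ShortComplex X.Modules := ShortComplex.mk (K.iCycles i) (K.d i (i + 1))
      (K.iCycles_d i (i + 1))
    have hex : S.Exact := by
      apply ShortComplex.exact_of_f_is_kernel
      exact K.cyclesIsKernel i (i + 1) (by simp)
    have hm : Mono S.f := inferInstanceAs (Mono (K.iCycles i))
    exact LC.ker hex (hK i) (hK (i + 1))
  have h1 : LC (Limits.cokernel (K.toCycles (i - 1) i)) U := LC.cokernel _ (hK _) hc
  exact h1.iso ((colimit.isColimit _).coconePointUniqueUpToIso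
    (K.homologyIsCokernel (i - 1) i (by simp)))

end noeth

/-! ### Perfect complexes -/

lemma lc_unit : LC (unitMod X) ⊤ := by
  have h : LC (OO X) ⊤ :=
    ⟨isBasisOn_oo.qcOn, fun V _ _ => Module.Finite.equiv (ooE V)⟩
  exact h

lemma lc_sum (n : ℕ) : LC (⨁ fun _ : Fin n => unitMod X) ⊤ := by
  induction n with
  | zero =>
    apply lc_of_isZero
    rw [IsZero.iff_id_eq_zero]
    ext i
    exact i.elim0
  | succ n ih =>
    have h1 : LC (⨁ fun _ : Fin 1 => unitMod X) ⊤ :=
      lc_unit.iso (biproductUniqueIso (fun _ : Fin 1 => unitMod X)).symm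
    exact (ih.biprod h1).iso (biprodFin _ n 1)

lemma lc_of_finiteLocallyFree {M : X.Modules} (h : IsFiniteLocallyFree M) : LC M ⊤ := by
  apply lc_of_local
  intro x _
  obtain ⟨U, hx, n, ⟨e⟩⟩ := h x
  exact ⟨U, hx, lc_of_restrict ((lc_sum n).iso e.symm)⟩

/-- cohomology of a perfect complex, locally -/
theorem perfect_local [IsLocallyNoetherian X] {E : DerivedCategory X.Modules}
    (hE : isPerfect X E) (x : X) : ∃ U : X.Opens, x ∈ U ∧ (∀ i, LC (Hh i E) U) ∧
      ∃ a b : ℤ, ∀ i : ℤ, (i < a ∨ b < i) →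
        IsZero ((Scheme.Modules.restrictFunctor U.ι).obj (Hh i E)) := by
  obtain ⟨U, hx, K, ⟨⟨a, b, hab⟩, hK⟩, ⟨e⟩⟩ := hE x
  have hN : IsLocallyNoetherian U.toScheme := isLocallyNoetherian_of_isOpenImmersion U.ι
  have hiso : ∀ i, Nonempty ((Scheme.Modules.restrictFunctor U.ι).obj (Hh i E) ≅
      K.homology i) := by
    intro i
    obtain ⟨e1⟩ := mapD_homology (Scheme.Modules.restrictFunctor U.ι) E i
    exact ⟨e1.symm ≪≫ (DerivedCategory.homologyFunctor _ i).mapIso e ≪≫
      (DerivedCategory.homologyFunctorFactors _ i).app K⟩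
  refine ⟨U, hx, fun i => ?_, a, b, fun i hi => ?_⟩
  · obtain ⟨e1⟩ := hiso i
    apply lc_of_restrict
    exact (LC.homology (fun j => lc_of_finiteLocallyFree (hK j)) i).iso e1.symm
  · obtain ⟨e1⟩ := hiso i
    have hz : IsZero (K.homology i) := ShortComplex.isZero_homology_of_isZero_X₂ _ (hab i hi)
    exact hz.of_iso e1

theorem perfect_lc [IsLocallyNoetherian X] {E : DerivedCategory X.Modules}
    (hE : isPerfect X E) (i : ℤ) : LC (Hh i E) ⊤ := by
  apply lc_of_local
  intro x _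
  obtain ⟨U, hx, h, -⟩ := perfect_local hE x
  exact ⟨U, hx, h i⟩

theorem perfect_bounded [IsLocallyNoetherian X] [CompactSpace X]
    {E : DerivedCategory X.Modules} (hE : isPerfect X E) :
    ∃ a b : ℤ, ∀ i : ℤ, (i < a ∨ b < i) → IsZero (Hh i E) := by
  choose U hx h a b hab using fun x => perfect_local hE x
  obtain ⟨t, ht⟩ := isCompact_univ.elim_finite_subcover (fun x => (U x : Set X))
    (fun x => (U x).isOpen) (fun x _ => Set.mem_iUnion.2 ⟨x, hx x⟩)
  obtain ⟨A, hA⟩ : ∃ A : ℤ, ∀ x ∈ t, A ≤ a x := by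
    obtain ⟨A, hA⟩ := (t.image a).bddBelow
    exact ⟨A, fun x hx => hA (Finset.mem_coe.2 (Finset.mem_image_of_mem a hx))⟩
  obtain ⟨B, hB⟩ : ∃ B : ℤ, ∀ x ∈ t, b x ≤ B := by
    obtain ⟨B, hB⟩ := (t.image b).bddAbove
    exact ⟨B, fun x hx => hB (Finset.mem_coe.2 (Finset.mem_image_of_mem b hx))⟩
  refine ⟨A, B, fun i hi => ?_⟩
  apply isZero_of_stalk
  intro z
  obtain ⟨x, hxt, hz⟩ := Set.mem_iUnion₂.1 (ht (Set.mem_univ z))
  have h1 : IsZero ((Scheme.Modules.restrictFunctor (U x).ι).obj (Hh i E)) := by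
    apply hab
    rcases hi with hi | hi
    · exact Or.inl (hi.trans_le (hA x hxt))
    · exact Or.inr ((hB x hxt).trans_lt hi)
  exact isZero_stalk_restrict (U x).ι (Hh i E) ⟨z, hz⟩
    (Functor.map_isZero (stalkF (U x).toScheme ⟨z, hz⟩) h1)

end Pool.Agent.Q37.QA
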